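import Pool.Agent.Lib.NLF.Def

/-!
MP_00e23e_nt, project NL (all classes, no lock), chapter F, module Fin (helper57; copy of SLA/Fik.lean for an arbitrary property
of the moduli).
-/

namespace Pool.Agent.Lib.NLF

open Finset Pool.Agent.Lib.EH3 Pool.Agent.Lib.TB Pool.Agent.Results.MP_00e23e_nt Pool.Agent.Lib.MI
open Pool.Agent.Lib.MX (Bd Mz En Sp Bd_nonneg Bd_mono rp_le rn_le log_le_T Tau_x)

private lemma Fin_tot {u : ℕ} (hu : 1 ≤ u) : (1 : ℝ) ≤ (u.totient : ℝ) := by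
  have : 1 ≤ u.totient := Nat.totient_pos.2 hu
  exact_mod_cast this

private lemma Fin_split (y : ℝ) (d t : ℕ) (s : ℤ) (hd : Squarefree d) (ht : t ∣ d) :
    resErr y d s = df y d t s + resErr y t s / ((d / t).totient : ℝ) := by
  have hd0 : d ≠ 0 := hd.ne_zero
  have ht0 : 0 < t := Nat.pos_of_dvd_of_pos ht (Nat.pos_of_ne_zero hd0)
  have hu : 1 ≤ d / t := Nat.div_pos (Nat.le_of_dvd (Nat.pos_of_ne_zero hd0) ht) ht0
  have hmul : t * (d / t) = d := Nat.mul_div_cancel' ht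
  have hcop : t.Coprime (d / t) := by
    rw [← hmul] at hd
    exact Nat.coprime_of_squarefree_mul hd
  have htot : (d.totient : ℝ) = (t.totient : ℝ) * ((d / t).totient : ℝ) := by
    conv_lhs => rw [← hmul]
    rw [Nat.totient_mul hcop]
    push_cast
    rfl
  have h1 := Fin_tot hu
  have h2 := Fin_tot ht0
  unfold resErr df
  rw [htot]
  have h1' : ((d / t).totient : ℝ) ≠ 0 := by positivity
  have h2' : (t.totient : ℝ) ≠ 0 := by positivity
  field_simp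
  ring

private lemma Fin_dvd (w : ℝ) {d : ℕ} (hd : Squarefree d) : Sp w d ∣ d := by
  conv_rhs => rw [← Nat.prod_primeFactors_of_squarefree hd]
  exact prod_dvd_prod_of_subset _ _ _ (filter_subset _ _)

private lemma Fin_big {w : ℝ} {d p : ℕ} (hd : Squarefree d) (hp : p.Prime) (hpd : p ∣ d / Sp w d) : w < p := by
  by_contra hcon
  push Not at hcon
  have h1 := Fin_dvd w hd
  have h2 : p ∣ d := hpd.trans (Nat.div_dvd_of_dvd h1)
  have h3 : p ∣ Sp w d := by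
    unfold Sp
    refine dvd_prod_of_mem _ ?_
    rw [mem_filter]
    exact ⟨Nat.mem_primeFactors.2 ⟨hp, h2, hd.ne_zero⟩, hcon⟩
  have h4 : p * p ∣ d := by
    have h5 := mul_dvd_mul h3 hpd
    rwa [Nat.mul_div_cancel' h1] at h5
  exact hp.not_isUnit (hd p h4)

private lemma Fin_En_mul (a b x : ℝ) : En a x * En b x = En (a + b) x := by
  unfold En
  rw [← Real.exp_add]
  congr 1
  ring

private lemma Fin_En_pow (a x : ℝ) (n : ℕ) : (En a x) ^ n = En (a * n) x := by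
  unfold En
  rw [← Real.exp_nat_mul]
  congr 1
  ring

private lemma Fin_En_rpow (a η x : ℝ) : (En a x) ^ η = En (a * η) x := by
  unfold En
  rw [← Real.exp_mul]
  congr 1
  ring

private lemma Fin_En_inv (a x : ℝ) : 1 / En a x = En (-a) x := by
  unfold En
  rw [one_div, ← Real.exp_neg]
  congr 1
  ring

private lemma Fin_En_pos (a x : ℝ) : 0 < En a x := Real.exp_pos _

/-- U (log L)^2 ≤ L -/
private lemma Fin_log {U L : ℝ} (hU : 0 < U) (hL1 : 1 ≤ L) (hL : (16 * U) ^ 2 ≤ L) : U * (Real.log L) ^ 2 ≤ L := by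
  have h0 : 0 < L := by linarith
  have h1 : Real.log L ≤ L ^ ((1 : ℝ) / 4) / (1 / 4) := Real.log_le_rpow_div h0.le (by norm_num)
  have h2 : 0 ≤ Real.log L := Real.log_nonneg hL1
  have h3 : (Real.log L) ^ 2 ≤ (L ^ ((1 : ℝ) / 4) / (1 / 4)) ^ 2 := pow_le_pow_left₀ h2 h1 2
  have h4 : (L ^ ((1 : ℝ) / 4) / (1 / 4)) ^ 2 = 16 * L ^ ((1 : ℝ) / 2) := by
    have : (L ^ ((1 : ℝ) / 4)) ^ 2 = L ^ ((1 : ℝ) / 2) := by
      rw [← Real.rpow_natCast, ← Real.rpow_mul h0.le]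
      norm_num
    rw [div_pow, this]
    ring
  rw [h4] at h3
  have h5 : L ^ ((1 : ℝ) / 2) = Real.sqrt L := (Real.sqrt_eq_rpow L).symm
  rw [h5] at h3
  have h6 : 16 * U ≤ Real.sqrt L := Real.le_sqrt_of_sq_le hL
  have h7 : Real.sqrt L * Real.sqrt L = L := Real.mul_self_sqrt h0.le
  have h8 : 0 ≤ Real.sqrt L := Real.sqrt_nonneg _
  nlinarith [mul_le_mul_of_nonneg_left h3 hU.le, mul_le_mul_of_nonneg_right h6 h8]

private lemma Fin_count (y : ℝ) (hy : 0 ≤ y) (d : ℕ) (s : ℤ) : (resCount y d s : ℝ) ≤ y := by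
  unfold resCount
  have h1 : ((Icc 1 ⌊y⌋₊).filter (fun p : ℕ => p.Prime ∧ (d : ℤ) ∣ (p : ℤ) - s)).card ≤ ⌊y⌋₊ := by
    refine (card_filter_le _ _).trans ?_
    simp
  have h2 : (((Icc 1 ⌊y⌋₊).filter (fun p : ℕ => p.Prime ∧ (d : ℤ) ∣ (p : ℤ) - s)).card : ℝ) ≤ (⌊y⌋₊ : ℝ) := by
    exact_mod_cast h1
  exact h2.trans (Nat.floor_le hy)

private lemma Fin_one {x y : ℝ} {d : ℕ} {s : ℤ} (hd : 1 ≤ d) (hy : 2 ≤ y) (hyx : y ≤ x) :
    |resErr y d s| ≤ 3 * x := by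
  have a1 := Fin_count y (by linarith) d s
  have a2 := Pool.Agent.Lib.EH.li_le hy
  have a3 := Pool.Agent.Lib.EH.li_nonneg hy
  have a7 : (1 : ℝ) ≤ (d.totient : ℝ) := by
    have : 1 ≤ d.totient := Nat.totient_pos.2 hd
    exact_mod_cast this
  have a4 : li y / (d.totient : ℝ) ≤ 2 * x := (div_le_self a3 a7).trans (by linarith)
  have a5 : 0 ≤ li y / (d.totient : ℝ) := by positivity
  have a6 : (0 : ℝ) ≤ (resCount y d s : ℝ) := by positivity
  unfold resErr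
  rw [abs_le]
  constructor <;> linarith

/-- the trivial bound -/
private lemma Fin_triv {x x3 U : ℝ} {s : ℕ → ℤ} {y : ℕ → ℝ} {M : Finset ℕ} (hx : 3 ≤ x) (hxx : x < x3) (hU : 0 < U)
    (hy : ∀ d, 2 ≤ y d ∧ y d ≤ x) (hM : ∀ d ∈ M, 1 ≤ d ∧ (d : ℝ) ≤ x) :
    ∑ d ∈ M, |resErr (y d) d (s d)| ≤ (3 * x3 ^ 2 * (Real.log x3) ^ U) * (x / (Real.log x) ^ U) := by
  have hx0 : 0 < x := by linarith
  have hl : 0 < Real.log x := Real.log_pos (by linarith)
  have hlU : 0 < (Real.log x) ^ U := Real.rpow_pos_of_pos hl U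
  have hMc : (M.card : ℝ) ≤ x3 := by
    have hsub : M ⊆ Icc 1 ⌊x3⌋₊ := by
      intro d hdM
      obtain ⟨h3, h4⟩ := hM d hdM
      rw [mem_Icc]
      exact ⟨h3, Nat.le_floor (h4.trans hxx.le)⟩
    have h5 : M.card ≤ ⌊x3⌋₊ := by
      have := card_le_card hsub
      simpa using this
    have h6 : (M.card : ℝ) ≤ (⌊x3⌋₊ : ℝ) := by exact_mod_cast h5
    exact h6.trans (Nat.floor_le (by linarith))
  have G1 : ∑ d ∈ M, |resErr (y d) d (s d)| ≤ 3 * x3 ^ 2 := by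
    calc ∑ d ∈ M, |resErr (y d) d (s d)| ≤ ∑ _d ∈ M, 3 * x :=
          sum_le_sum (fun d hd => Fin_one (hM d hd).1 (hy d).1 (hy d).2)
      _ = M.card * (3 * x) := by rw [sum_const, nsmul_eq_mul]
      _ ≤ x3 * (3 * x3) := mul_le_mul hMc (by linarith) (by linarith) (by linarith)
      _ = 3 * x3 ^ 2 := by ring
  have G4 : (Real.log x) ^ U ≤ (Real.log x3) ^ U :=
    Real.rpow_le_rpow hl.le (Real.log_le_log hx0 hxx.le) hU.le
  have G6 : 1 / (Real.log x) ^ U ≤ x / (Real.log x) ^ U :=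
    div_le_div_of_nonneg_right (by linarith) hlU.le
  have G7 : 0 ≤ 3 * x3 ^ 2 := by positivity
  have G8 : 0 ≤ (Real.log x3) ^ U := hlU.le.trans G4
  have G9 : 3 * x3 ^ 2 = 3 * x3 ^ 2 * (Real.log x) ^ U * (1 / (Real.log x) ^ U) := by
    field_simp
  calc ∑ d ∈ M, |resErr (y d) d (s d)| ≤ 3 * x3 ^ 2 := G1
    _ = 3 * x3 ^ 2 * (Real.log x) ^ U * (1 / (Real.log x) ^ U) := G9
    _ ≤ (3 * x3 ^ 2 * (Real.log x3) ^ U) * (x / (Real.log x) ^ U) :=
      mul_le_mul (mul_le_mul_of_nonneg_left G4 G7) G6 (by positivity) (mul_nonneg G7 G8)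

/-- large x, the moduli with a small En A' x-smooth part -/
private lemma Fin_large (h1 : SLA.FpsStmt) (h2 : MX.WigStmt) (h4 : MI.FbvStmt) {P : ℝ → ℕ → Prop} {δ τ : ℝ} (_hδ : 0 ≤ δ)
    (hδ1 : δ ≤ 1 / 10) (hτ : 0 < τ) (hτ1 : τ ≤ 1 / 3) (hcore : SLA.CoreStmt (Hq P) (1 / 2 + δ) τ) (b U : ℝ) (hb : 0 < b)
    (hU : 0 < U) : ∃ A' C x0 : ℝ, 0 < A' ∧ 0 ≤ C ∧ 3 ≤ x0 ∧
    ∀ (x : ℝ) (s : ℕ → ℤ) (i : ℕ → ℕ) (y : ℕ → ℝ) (M : Finset ℕ), x0 ≤ x → ((M.image i).card : ℝ) ≤ En b x →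
    (∀ d, 2 ≤ y d ∧ y d ≤ x) →
    (∀ d ∈ M, (Squarefree d ∧ (d : ℝ) ≤ x ^ (1 / 2 + δ) ∧ P x d ∧ Int.gcd (s d) d = 1) ∧
      (Sp (En A' x) d : ℝ) ≤ x ^ τ) →
    ∑ d ∈ M, |resErr (y d) d (s d)| ≤ C * (x / (Real.log x) ^ U) := by
  have hα : 1 / 2 + δ ≤ (3 : ℝ) / 5 := by linarith
  obtain ⟨η, C1, x1, A0, hη, hη1, hC1, hx1, H1⟩ := h1 (Hq P) (1 / 2 + δ) τ hα hτ.le hτ1 hcore
  obtain ⟨xW, hxW, H2⟩ := h2
  obtain ⟨C2, hC2, H4⟩ := h4 U hU
  set A' : ℝ := (b + 60 * A0 + 1) / η with hA'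
  have hA'0 : 0 < A' := by positivity
  have hA'η : A' * η = b + 60 * A0 + 1 := by
    rw [hA']
    field_simp
  refine ⟨A', C1 + C2, max (max x1 xW) (max 16 (Real.exp (max (Real.exp (max A' 1)) ((16 * U) ^ 2)))), hA'0,
    by positivity, ?_, ?_⟩
  · exact hx1.trans ((le_max_left _ _).trans (le_max_left _ _))
  intro x s i y M hx hcard hy hM
  have hxx1 : x1 ≤ x := ((le_max_left _ _).trans (le_max_left _ _)).trans hx
  have hxxW : xW ≤ x := ((le_max_right _ _).trans (le_max_left _ _)).trans hx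
  have hx16 : 16 ≤ x := ((le_max_left _ _).trans (le_max_right _ _)).trans hx
  have hxe : Real.exp (max (Real.exp (max A' 1)) ((16 * U) ^ 2)) ≤ x :=
    ((le_max_right _ _).trans (le_max_right _ _)).trans hx
  have hx0 : 0 < x := by linarith
  have hx1' : 1 < x := by linarith
  have hL : max (Real.exp (max A' 1)) ((16 * U) ^ 2) ≤ Real.log x := (Real.le_log_iff_exp_le hx0).2 hxe
  have hL1 : Real.exp (max A' 1) ≤ Real.log x := (le_max_left _ _).trans hL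
  have hL2 : (16 * U) ^ 2 ≤ Real.log x := (le_max_right _ _).trans hL
  have hL0 : 0 < Real.log x := (Real.exp_pos _).trans_le hL1
  have hl : max A' 1 ≤ Real.log (Real.log x) := (Real.le_log_iff_exp_le hL0).2 hL1
  have hlA : A' ≤ Real.log (Real.log x) := (le_max_left _ _).trans hl
  have hl1 : 1 ≤ Real.log (Real.log x) := (le_max_right _ _).trans hl
  have hLge : 1 ≤ Real.log x := by
    have : 1 ≤ Real.exp (max A' 1) := Real.one_le_exp (by positivity)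
    linarith
  -- z and T
  have hz1 : 1 ≤ En A' x := by
    unfold MX.En
    exact Real.one_le_exp (by positivity)
  have hzx : En A' x ≤ x := by
    unfold MX.En
    calc Real.exp (A' * Real.log x / Real.log (Real.log x)) ≤ Real.exp (Real.log x) := by
          apply Real.exp_le_exp.2
          rw [div_le_iff₀ (by linarith)]
          nlinarith
      _ = x := Real.exp_log hx0
  have hT := H2 x hxxW
  have hd : ∀ d ∈ M, Squarefree d ∧ Sp (En A' x) d ∣ d ∧ 1 ≤ d ∧ (d : ℝ) ≤ x := by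
    intro d hdM
    obtain ⟨⟨m1, m2, -, -⟩, -⟩ := hM d hdM
    refine ⟨m1, Fin_dvd _ m1, Nat.one_le_iff_ne_zero.2 m1.ne_zero, m2.trans ?_⟩
    calc x ^ (1 / 2 + δ) ≤ x ^ (1 : ℝ) := Real.rpow_le_rpow_of_exponent_le hx1'.le (by linarith)
      _ = x := Real.rpow_one x
  have F1 := H1 x (En 60 x) (En A' x) s (fun d => Sp (En A' x) d) i y M hxx1 hT hz1 hzx hy
    (fun d hdM => by
      obtain ⟨⟨m1, m2, m3, m4⟩, m5⟩ := hM d hdM
      exact ⟨⟨m1, Fin_dvd _ m1, m2, m5, fun p hp hpd => Fin_big m1 hp hpd⟩, m4⟩)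
    (fun w => fun d hd => (hM d (mem_filter.1 hd).1).1.2.2.1)
  have F2 := H4 x s (fun d => Sp (En A' x) d) y M hx16 hy (fun d hdM => by
    obtain ⟨⟨m1, m2, m3, m4⟩, m5⟩ := hM d hdM
    obtain ⟨-, n2, n3, n4⟩ := hd d hdM
    exact ⟨n3, n2, n4, m5.trans (Real.rpow_le_rpow_of_exponent_le hx1'.le hτ1), m4⟩)
  -- the bound
  have hxl0 : 0 ≤ x / (Real.log x) ^ U := by positivity
  have F3 : ((M.image i).card : ℝ) * Bd C1 A0 η x (En 60 x) (En A' x) ≤ C1 * (x / (Real.log x) ^ U) := by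
    have k1 : ((M.image i).card : ℝ) * Bd C1 A0 η x (En 60 x) (En A' x) ≤
        En b x * Bd C1 A0 η x (En 60 x) (En A' x) :=
      mul_le_mul_of_nonneg_right hcard (Bd_nonneg hC1 hT.1 hx0.le hz1)
    have k2 : En b x * Bd C1 A0 η x (En 60 x) (En A' x) = C1 * (x * En (-1) x) := by
      unfold MX.Bd
      rw [Fin_En_pow, Fin_En_rpow]
      have k3 : x / En (A' * η) x = x * En (-(A' * η)) x := by
        rw [← Fin_En_inv]
        ring
      rw [k3]
      have k4 : En b x * (C1 * En (60 * A0) x * (x * En (-(A' * η)) x)) =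
          C1 * (x * (En b x * En (60 * A0) x * En (-(A' * η)) x)) := by ring
      rw [k4, Fin_En_mul, Fin_En_mul, hA'η]
      congr 3
      ring
    have k5 : En (-1) x ≤ 1 / (Real.log x) ^ U := by
      rw [one_div, ← Real.rpow_neg hL0.le, Real.rpow_def_of_pos hL0]
      unfold MX.En
      apply Real.exp_le_exp.2
      have k6 := Fin_log hU hLge hL2
      rw [div_le_iff₀ (by linarith)]
      nlinarith
    rw [k2] at k1
    refine k1.trans (mul_le_mul_of_nonneg_left ?_ hC1)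
    calc x * En (-1) x ≤ x * (1 / (Real.log x) ^ U) := mul_le_mul_of_nonneg_left k5 hx0.le
      _ = x / (Real.log x) ^ U := by ring
  have F4 : ∑ d ∈ M, |resErr (y d) d (s d)| ≤ ∑ d ∈ M, (|df (y d) d (Sp (En A' x) d) (s d)| +
      |resErr (y d) (Sp (En A' x) d) (s d)| / ((d / Sp (En A' x) d).totient : ℝ)) := by
    refine sum_le_sum fun d hdM => ?_
    obtain ⟨n1, n2, n3, n4⟩ := hd d hdM
    rw [Fin_split (y d) d (Sp (En A' x) d) (s d) n1 n2]
    refine (abs_add_le _ _).trans ?_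
    have e1 : |resErr (y d) (Sp (En A' x) d) (s d) / ((d / Sp (En A' x) d).totient : ℝ)| =
        |resErr (y d) (Sp (En A' x) d) (s d)| / ((d / Sp (En A' x) d).totient : ℝ) := by
      rw [abs_div, abs_of_nonneg (by positivity : (0 : ℝ) ≤ ((d / Sp (En A' x) d).totient : ℝ))]
    rw [e1]
  rw [sum_add_distrib] at F4
  have F5 : ∑ d ∈ M, |df (y d) d (Sp (En A' x) d) (s d)| ≤ C1 * (x / (Real.log x) ^ U) := F1.trans F3
  have F6 : ∑ d ∈ M, |resErr (y d) (Sp (En A' x) d) (s d)| / ((d / Sp (En A' x) d).totient : ℝ) ≤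
      C2 * (x / (Real.log x) ^ U) := F2
  have F7 : (C1 + C2) * (x / (Real.log x) ^ U) = C1 * (x / (Real.log x) ^ U) + C2 * (x / (Real.log x) ^ U) := by ring
  rw [F7]
  linarith

private lemma Fin_card {x : ℝ} (hx : 3 ≤ x) (M : Finset ℕ) : ((M.image (fun _ : ℕ => (0 : ℕ))).card : ℝ) ≤ En 1 x := by
  have f2 : ((M.image (fun _ : ℕ => (0 : ℕ))).card : ℝ) ≤ 1 := by
    have f3 : (M.image (fun _ : ℕ => (0 : ℕ))).card ≤ 1 := by
      refine (card_le_card (t := {0}) ?_).trans (by simp)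
      intro k hk
      obtain ⟨_, _, h⟩ := mem_image.1 hk
      rw [mem_singleton, ← h]
    exact_mod_cast f3
  refine f2.trans ?_
  unfold MX.En
  have hx0 : 0 < x := by linarith
  have hx1 : 1 ≤ x := by linarith
  have hl : 0 ≤ Real.log x := Real.log_nonneg hx1
  refine Real.one_le_exp (div_nonneg (by linarith) (Real.log_nonneg ?_))
  have f4 : Real.exp 1 ≤ x := by
    have := Real.exp_one_lt_d9
    linarith
  exact (Real.le_log_iff_exp_le hx0).2 f4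

/-- Uses: SLA.FpsStmt, MX.WigStmt, MI.FbvStmt, MX.ExeStmt. -/
theorem tFin (h1 : SLA.FpsStmt) (h2 : MX.WigStmt) (h3 : MI.FbvStmt) (h4 : MX.ExeStmt) : FinStmt := by
  intro P δ τ hδ hδ1 hτ hτ1 hcore U hU
  obtain ⟨A', C1, x1, hA', hC1, hx1, H1⟩ := Fin_large h1 h2 h3 hδ hδ1 hτ hτ1 hcore 1 U one_pos hU
  obtain ⟨C2, x2, hC2, hx2, H2⟩ := h4 τ A' U hτ hA' hU
  set x3 : ℝ := max x1 x2 with hx3
  have hx3a : x1 ≤ x3 := le_max_left _ _
  have hx3b : x2 ≤ x3 := le_max_right _ _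
  have hl3 : 0 < Real.log x3 := Real.log_pos (by linarith)
  have hp : 0 ≤ 3 * x3 ^ 2 * (Real.log x3) ^ U := by positivity
  refine ⟨C1 + C2 + 3 * x3 ^ 2 * (Real.log x3) ^ U, fun x s y M hx hy hM => ?_⟩
  have hx0 : 0 < x := by linarith
  have hl : 0 < Real.log x := Real.log_pos (by linarith)
  have hxl0 : 0 ≤ x / (Real.log x) ^ U := by positivity
  have hdx : ∀ d ∈ M, 1 ≤ d ∧ (d : ℝ) ≤ x := by
    intro d hd
    obtain ⟨g1, g2, -, -⟩ := hM d hd
    refine ⟨Nat.one_le_iff_ne_zero.2 g1.ne_zero, g2.trans ?_⟩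
    calc x ^ (1 / 2 + δ) ≤ x ^ (1 : ℝ) := Real.rpow_le_rpow_of_exponent_le (by linarith) (by linarith)
      _ = x := Real.rpow_one x
  by_cases hxx : x3 ≤ x
  · classical
    rw [← sum_filter_add_sum_filter_not M (fun d => (Sp (En A' x) d : ℝ) ≤ x ^ τ)]
    have F1 := H1 x s (fun _ => 0) y (M.filter (fun d => (Sp (En A' x) d : ℝ) ≤ x ^ τ)) (hx3a.trans hxx) ?_
      hy ?_
    · have F2 := H2 x s y (M.filter (fun d => ¬ (Sp (En A' x) d : ℝ) ≤ x ^ τ)) (hx3b.trans hxx) hy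
        (fun d hd => by
          rw [mem_filter] at hd
          obtain ⟨g1, -, -, -⟩ := hM d hd.1
          exact ⟨g1, (hdx d hd.1).2, not_le.1 hd.2⟩)
      have F3 : 0 ≤ (3 * x3 ^ 2 * (Real.log x3) ^ U) * (x / (Real.log x) ^ U) := mul_nonneg hp hxl0
      have F4 : (C1 + C2 + 3 * x3 ^ 2 * (Real.log x3) ^ U) * (x / (Real.log x) ^ U) =
          C1 * (x / (Real.log x) ^ U) + C2 * (x / (Real.log x) ^ U) +
          (3 * x3 ^ 2 * (Real.log x3) ^ U) * (x / (Real.log x) ^ U) := by ring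
      rw [F4]
      linarith
    · exact Fin_card hx _
    · intro d hd
      rw [mem_filter] at hd
      exact ⟨hM d hd.1, hd.2⟩
  · push Not at hxx
    have F1 := Fin_triv (s := s) hx hxx hU hy hdx
    have F2 : 0 ≤ (C1 + C2) * (x / (Real.log x) ^ U) := mul_nonneg (add_nonneg hC1 hC2) hxl0
    rw [add_mul]
    linarith

end Pool.Agent.Lib.NLF
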