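import Pool.Agent.Lib.NLF.Def

/-!
MP_00e23e_nt, project NL (all classes, no lock), chapter F, module Ron (helper57): the form with comparison divisors and the power
saving.
-/

namespace Pool.Agent.Lib.NLF

open Finset Pool.Agent.Lib.EH3 Pool.Agent.Lib.TB Pool.Agent.Results.MP_00e23e_nt Pool.Agent.Lib.MI
open Pool.Agent.Lib.MX (Bd Mz En Sp Bd_nonneg Bd_mono rp_le rn_le log_le_T Tau_x)

private lemma Ron_En_one {A x : ℝ} (hA : 0 ≤ A) (hx : 3 ≤ x) : 1 ≤ En A x := by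
  unfold MX.En
  have hx0 : 0 < x := by linarith
  have hl : 0 ≤ Real.log x := Real.log_nonneg (by linarith)
  refine Real.one_le_exp (div_nonneg (mul_nonneg hA hl) (Real.log_nonneg ?_))
  have f4 : Real.exp 1 ≤ x := by
    have := Real.exp_one_lt_d9
    linarith
  exact (Real.le_log_iff_exp_le hx0).2 f4

private lemma Ron_En_pow (a x : ℝ) (n : ℕ) : (En a x) ^ n = En (a * n) x := by
  unfold MX.En
  rw [← Real.exp_nat_mul]
  congr 1
  ring

private lemma Ron_count (y : ℝ) (hy : 0 ≤ y) (d : ℕ) (s : ℤ) : (resCount y d s : ℝ) ≤ y := by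
  unfold resCount
  have h1 : ((Icc 1 ⌊y⌋₊).filter (fun p : ℕ => p.Prime ∧ (d : ℤ) ∣ (p : ℤ) - s)).card ≤ ⌊y⌋₊ := by
    refine (card_filter_le _ _).trans ?_
    simp
  have h2 : (((Icc 1 ⌊y⌋₊).filter (fun p : ℕ => p.Prime ∧ (d : ℤ) ∣ (p : ℤ) - s)).card : ℝ) ≤ (⌊y⌋₊ : ℝ) := by
    exact_mod_cast h1
  exact h2.trans (Nat.floor_le hy)

private lemma Ron_df {y x : ℝ} (hy : 2 ≤ y) (hyx : y ≤ x) (d t : ℕ) (s : ℤ) : |df y d t s| ≤ 2 * x := by
  have a1 := Ron_count y (by linarith) d s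
  have a2 := Ron_count y (by linarith) t s
  have a3 : (0 : ℝ) ≤ (resCount y d s : ℝ) := Nat.cast_nonneg _
  have a4 : (0 : ℝ) ≤ (resCount y t s : ℝ) := Nat.cast_nonneg _
  have a5 : (resCount y t s : ℝ) / ((d / t).totient : ℝ) ≤ (resCount y t s : ℝ) := by
    rcases Nat.eq_zero_or_pos (d / t).totient with h | h
    · rw [h, Nat.cast_zero, div_zero]
      exact a4
    · exact div_le_self a4 (by exact_mod_cast h)
  have a6 : 0 ≤ (resCount y t s : ℝ) / ((d / t).totient : ℝ) := div_nonneg a4 (Nat.cast_nonneg _)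
  unfold df
  rw [abs_le]
  constructor <;> linarith

/-- Uses: SLA.FpsStmt, MX.WigStmt. -/
theorem tRon (h1 : SLA.FpsStmt) (h2 : MX.WigStmt) : RonStmt := by
  classical
  intro P δ τ _hδ hδ1 hτ hτ1 hcore
  obtain ⟨η, C1, x1, A0, hη, hη1, hC1, hx1, H1⟩ := h1 (Hq P) (1 / 2 + δ) τ (by linarith) hτ hτ1 hcore
  obtain ⟨xW, hxW, H2⟩ := h2
  set x2 : ℝ := max x1 xW with hx2
  have hx21 : x1 ≤ x2 := le_max_left _ _
  have hx2W : xW ≤ x2 := le_max_right _ _
  have hA : (0 : ℝ) ≤ 60 * (A0 : ℝ) := by positivity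
  refine ⟨η, 60 * (A0 : ℝ), C1 + 2 * x2 ^ 2, hη, hA, by positivity, ?_⟩
  intro x z s y t M hx hz hzx hy hM
  have hx0 : 0 < x := by linarith
  have hx1' : 1 ≤ x := by linarith
  have hz0 : 0 < z := by linarith
  have hEn := Ron_En_one hA hx
  have hzη : 0 < z ^ η := Real.rpow_pos_of_pos hz0 _
  have hdx : ∀ d ∈ M, 1 ≤ d ∧ (d : ℝ) ≤ x := by
    intro d hd
    obtain ⟨⟨a1, a2, _, _⟩, _⟩ := hM d hd
    refine ⟨Nat.one_le_iff_ne_zero.2 a1.ne_zero, a2.trans ?_⟩
    calc x ^ (1 / 2 + δ) ≤ x ^ (1 : ℝ) := Real.rpow_le_rpow_of_exponent_le hx1' (by linarith)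
      _ = x := Real.rpow_one x
  have hbase : 1 ≤ x * En (60 * (A0 : ℝ)) x / z ^ η := by
    rw [le_div_iff₀ hzη, one_mul]
    calc z ^ η ≤ x ^ η := Real.rpow_le_rpow hz0.le hzx hη.le
      _ ≤ x ^ (1 : ℝ) := Real.rpow_le_rpow_of_exponent_le hx1' (by linarith)
      _ = x * 1 := by rw [Real.rpow_one, mul_one]
      _ ≤ x * En (60 * (A0 : ℝ)) x := mul_le_mul_of_nonneg_left hEn hx0.le
  have hb0 : 0 ≤ x * En (60 * (A0 : ℝ)) x / z ^ η := by linarith
  by_cases hxx : x2 ≤ x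
  · have hT := H2 x (hx2W.trans hxx)
    have hT1 : 1 ≤ En 60 x := hT.1
    have f1 := H1 x (En 60 x) z s t (fun _ => 0) y M (hx21.trans hxx) hT hz hzx hy
      (fun d hd => by
        obtain ⟨⟨a1, a2, a3, a4⟩, b1, b2, b3⟩ := hM d hd
        exact ⟨⟨a1, b1, a2, b2, b3⟩, a4⟩)
      (fun w d hd => (hM d (mem_filter.1 hd).1).1.2.2.1)
    have f2 : ((M.image (fun _ : ℕ => (0 : ℕ))).card : ℝ) ≤ 1 := by
      have f3 : (M.image (fun _ : ℕ => (0 : ℕ))).card ≤ 1 := by
        refine (Finset.card_le_card (t := {0}) ?_).trans (by simp)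
        intro k hk
        obtain ⟨_, _, h⟩ := Finset.mem_image.1 hk
        rw [Finset.mem_singleton, ← h]
      exact_mod_cast f3
    have f4 : 0 ≤ Bd C1 A0 η x (En 60 x) z := Bd_nonneg hC1 hT1 hx0.le hz
    have k3 : Bd C1 A0 η x (En 60 x) z = C1 * (x * En (60 * (A0 : ℝ)) x / z ^ η) := by
      rw [← Ron_En_pow]
      unfold MX.Bd
      ring
    calc ∑ d ∈ M, |df (y d) d (t d) (s d)|
        ≤ ((M.image (fun _ : ℕ => (0 : ℕ))).card : ℝ) * Bd C1 A0 η x (En 60 x) z := f1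
      _ ≤ 1 * Bd C1 A0 η x (En 60 x) z := mul_le_mul_of_nonneg_right f2 f4
      _ = C1 * (x * En (60 * (A0 : ℝ)) x / z ^ η) := by rw [one_mul, k3]
      _ ≤ (C1 + 2 * x2 ^ 2) * (x * En (60 * (A0 : ℝ)) x / z ^ η) := by
        refine mul_le_mul_of_nonneg_right ?_ hb0
        have : 0 ≤ 2 * x2 ^ 2 := by positivity
        linarith
  · push Not at hxx
    have hx20 : 0 ≤ x2 := by linarith
    have hc : (M.card : ℝ) ≤ x2 := by
      have c1 : M.card ≤ ⌊x2⌋₊ := by
        have hsub : M ⊆ Icc 1 ⌊x2⌋₊ := by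
          intro d hd
          obtain ⟨h3, h4⟩ := hdx d hd
          rw [mem_Icc]
          exact ⟨h3, Nat.le_floor (h4.trans hxx.le)⟩
        have := Finset.card_le_card hsub
        rwa [Nat.card_Icc, Nat.add_sub_cancel] at this
      have c2 : (M.card : ℝ) ≤ (⌊x2⌋₊ : ℝ) := by exact_mod_cast c1
      exact c2.trans (Nat.floor_le hx20)
    calc ∑ d ∈ M, |df (y d) d (t d) (s d)| ≤ ∑ _d ∈ M, 2 * x2 := by
          refine Finset.sum_le_sum fun d _ => ?_
          exact (Ron_df (hy d).1 (hy d).2 _ _ _).trans (by linarith)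
      _ = M.card * (2 * x2) := by rw [Finset.sum_const, nsmul_eq_mul]
      _ ≤ x2 * (2 * x2) := mul_le_mul_of_nonneg_right hc (by linarith)
      _ = 2 * x2 ^ 2 := by ring
      _ ≤ (C1 + 2 * x2 ^ 2) * 1 := by linarith
      _ ≤ (C1 + 2 * x2 ^ 2) * (x * En (60 * (A0 : ℝ)) x / z ^ η) :=
        mul_le_mul_of_nonneg_left hbase (by positivity)

/-- the power saving: all primes of d / t d are > x^ε -/
theorem NlR.power {P : ℝ → ℕ → Prop} {δ τ : ℝ} (h : NlR P δ τ) : ∀ ε : ℝ, 0 < ε → ∃ η C : ℝ, 0 < η ∧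
    ∀ (x : ℝ) (s : ℕ → ℤ) (y : ℕ → ℝ) (t : ℕ → ℕ) (M : Finset ℕ), 3 ≤ x → (∀ d, 2 ≤ y d ∧ y d ≤ x) →
    (∀ d ∈ M, (Squarefree d ∧ (d : ℝ) ≤ x ^ (1 / 2 + δ) ∧ P x d ∧ Int.gcd (s d) d = 1) ∧ t d ∣ d ∧ (t d : ℝ) ≤ x ^ τ ∧
      ∀ p : ℕ, p.Prime → p ∣ d / t d → x ^ ε < (p : ℝ)) →
    ∑ d ∈ M, |df (y d) d (t d) (s d)| ≤ C * x ^ (1 - η) := by
  intro ε hε
  obtain ⟨η, A, C, hη, hA, hC, H⟩ := h
  set e : ℝ := min ε 1 with he
  have he0 : 0 < e := lt_min hε one_pos
  have he1 : e ≤ 1 := min_le_right _ _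
  have hee : e ≤ ε := min_le_left _ _
  set L0 : ℝ := 2 * A / (e * η) with hL0
  have hL00 : 0 ≤ L0 := by positivity
  -- En A x ≤ B x^(e η/2)
  set B : ℝ := Real.exp (A * Real.exp L0 / Real.log (Real.log 3)) with hB
  have hlog3 : 0 < Real.log (Real.log 3) := by
    refine Real.log_pos ?_
    rw [Real.lt_log_iff_exp_lt (by norm_num)]
    have := Real.exp_one_lt_d9
    linarith
  have hB1 : 1 ≤ B := Real.one_le_exp (by positivity)
  have hEn : ∀ x : ℝ, 3 ≤ x → En A x ≤ B * x ^ (e * η / 2) := by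
    intro x hx
    have hx0 : 0 < x := by linarith
    have hl3 : Real.log 3 ≤ Real.log x := Real.log_le_log (by norm_num) hx
    have hl30 : 0 < Real.log 3 := Real.log_pos (by norm_num)
    have hll : Real.log (Real.log 3) ≤ Real.log (Real.log x) := Real.log_le_log hl30 hl3
    have hlx : 0 < Real.log x := by linarith
    have hllx : 0 < Real.log (Real.log x) := by linarith
    have hxp : 1 ≤ x ^ (e * η / 2) := Real.one_le_rpow (by linarith) (by positivity)
    by_cases hc : L0 ≤ Real.log (Real.log x)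
    · have h1 : En A x ≤ x ^ (e * η / 2) := by
        unfold MX.En
        rw [Real.rpow_def_of_pos hx0]
        refine Real.exp_le_exp.2 ?_
        rw [div_le_iff₀ hllx]
        have h2 : A = L0 * (e * η / 2) := by
          rw [hL0]
          field_simp
        have h3 : A ≤ Real.log (Real.log x) * (e * η / 2) := by
          calc A = L0 * (e * η / 2) := h2
            _ ≤ Real.log (Real.log x) * (e * η / 2) := mul_le_mul_of_nonneg_right hc (by positivity)
        calc A * Real.log x ≤ Real.log (Real.log x) * (e * η / 2) * Real.log x :=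
              mul_le_mul_of_nonneg_right h3 hlx.le
          _ = Real.log x * (e * η / 2) * Real.log (Real.log x) := by ring
      calc En A x ≤ x ^ (e * η / 2) := h1
        _ = 1 * x ^ (e * η / 2) := (one_mul _).symm
        _ ≤ B * x ^ (e * η / 2) := mul_le_mul_of_nonneg_right hB1 (by linarith)
    · push Not at hc
      have h1 : Real.log x ≤ Real.exp L0 := by
        rw [← Real.exp_log hlx]
        exact Real.exp_le_exp.2 hc.le
      have h2 : En A x ≤ B := by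
        unfold MX.En
        refine Real.exp_le_exp.2 ?_
        exact div_le_div₀ (by positivity) (mul_le_mul_of_nonneg_left h1 hA) hlog3 hll
      calc En A x ≤ B := h2
        _ = B * 1 := (mul_one _).symm
        _ ≤ B * x ^ (e * η / 2) := mul_le_mul_of_nonneg_left hxp (by linarith)
  refine ⟨e * η / 2, C * B, by positivity, ?_⟩
  intro x s y t M hx hy hM
  have hx0 : 0 < x := by linarith
  have hx1 : 1 ≤ x := by linarith
  have h1 := H x (x ^ e) s y t M hx (Real.one_le_rpow hx1 he0.le)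
    (by
      calc x ^ e ≤ x ^ (1 : ℝ) := Real.rpow_le_rpow_of_exponent_le hx1 he1
        _ = x := Real.rpow_one x) hy
    (fun d hd => by
      obtain ⟨a1, a2, a3, a4⟩ := hM d hd
      exact ⟨a1, a2, a3, fun p hp hpd => lt_of_le_of_lt (Real.rpow_le_rpow_of_exponent_le hx1 hee) (a4 p hp hpd)⟩)
  refine h1.trans ?_
  rw [mul_assoc]
  refine mul_le_mul_of_nonneg_left ?_ hC
  rw [← Real.rpow_mul hx0.le, div_le_iff₀ (Real.rpow_pos_of_pos hx0 _), mul_assoc, ← Real.rpow_add hx0]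
  calc x * En A x ≤ x * (B * x ^ (e * η / 2)) := mul_le_mul_of_nonneg_left (hEn x hx) hx0.le
    _ = B * (x ^ (1 : ℝ) * x ^ (e * η / 2)) := by
      rw [Real.rpow_one]
      ring
    _ = B * x ^ (1 - e * η / 2 + e * η) := by
      rw [← Real.rpow_add hx0]
      congr 2
      ring

end Pool.Agent.Lib.NLF
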