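import Pool.Agent.Lib.SLA.AllA
import Pool.Agent.Lib.NLF.Fin
import Pool.Agent.Lib.NLF.Ron

/-!
MP_00e23e_nt, project NL (all classes, no lock), chapter F without hypotheses (helper57).
-/

namespace Pool.Agent.Lib.NLF

open Finset Pool.Agent.Lib.EH3 Pool.Agent.Lib.TB Pool.Agent.Results.MP_00e23e_nt Pool.Agent.Lib.MI
open Pool.Agent.Lib.MX (Bd Mz En Sp Bd_nonneg Bd_mono rp_le rn_le log_le_T Tau_x)

theorem tFinAll : FinStmt := tFin SLA.tFpsAll MX.tWig SLA.tFbvAll SLA.tExeAll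

theorem tRonAll : RonStmt := tRon SLA.tFpsAll MX.tWig

theorem NlA.mono {P P' : ℝ → ℕ → Prop} {δ δ' : ℝ} (hP : ∀ (x : ℝ) (q : ℕ), 3 ≤ x → P x q → P' x q) (hδ : δ ≤ δ')
    (h : NlA P' δ') : NlA P δ := by
  intro U hU
  obtain ⟨C, hC⟩ := h U hU
  refine ⟨C, fun x s y M hx hy hM => hC x s y M hx hy fun d hd => ?_⟩
  obtain ⟨a1, a2, a3, a4⟩ := hM d hd
  exact ⟨a1, a2.trans (Real.rpow_le_rpow_of_exponent_le (by linarith) (by linarith)), hP x d hx a3, a4⟩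

theorem NlR.mono {P P' : ℝ → ℕ → Prop} {δ δ' τ τ' : ℝ} (hP : ∀ (x : ℝ) (q : ℕ), 3 ≤ x → P x q → P' x q) (hδ : δ ≤ δ')
    (hτ : τ ≤ τ') (h : NlR P' δ' τ') : NlR P δ τ := by
  obtain ⟨η, A, C, hη, hA, hC, H⟩ := h
  refine ⟨η, A, C, hη, hA, hC, fun x z s y t M hx hz hzx hy hM => H x z s y t M hx hz hzx hy fun d hd => ?_⟩
  obtain ⟨⟨a1, a2, a3, a4⟩, b1, b2, b3⟩ := hM d hd
  exact ⟨⟨a1, a2.trans (Real.rpow_le_rpow_of_exponent_le (by linarith) (by linarith)), hP x d hx a3, a4⟩, b1,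
    b2.trans (Real.rpow_le_rpow_of_exponent_le (by linarith) hτ), b3⟩

theorem Smq_mono {μ μ' κ κ' x : ℝ} {q : ℕ} (hμ : μ ≤ μ') (hκ : κ ≤ κ') (hx : 3 ≤ x) (h : Smq μ κ x q) :
    Smq μ' κ' x q := by
  obtain ⟨m, h1, h2, h3⟩ := h
  exact ⟨m, h1, h2.trans (Real.rpow_le_rpow_of_exponent_le (by linarith) hμ), fun p hp hpd =>
    (h3 p hp hpd).trans (Real.rpow_le_rpow_of_exponent_le (by linarith) hκ)⟩

/-- the display form with one parameter -/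
theorem display {μ κ δ τ : ℝ} (hμ : 0 < μ) (hκ : 0 < κ) (hδ : 0 < δ) (hδ1 : δ ≤ 1 / 10) (hτ : 0 < τ) (hτ1 : τ ≤ 1 / 3)
    (h : SLA.CoreStmt (Hq (Smq μ κ)) (1 / 2 + δ) τ) :
    ∃ δ0 : ℝ, 0 < δ0 ∧ NlA (Smq δ0 δ0) δ0 ∧ NlR (Smq δ0 δ0) δ0 δ0 := by
  set e : ℝ := min (min μ κ) (min δ τ) with he
  have e1 : e ≤ μ := (min_le_left _ _).trans (min_le_left _ _)
  have e2 : e ≤ κ := (min_le_left _ _).trans (min_le_right _ _)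
  have e3 : e ≤ δ := (min_le_right _ _).trans (min_le_left _ _)
  have e4 : e ≤ τ := (min_le_right _ _).trans (min_le_right _ _)
  refine ⟨e, lt_min (lt_min hμ hκ) (lt_min hδ hτ), ?_, ?_⟩
  · exact NlA.mono (fun x q hx hq => Smq_mono e1 e2 hx hq) e3 (tFinAll _ _ _ hδ.le hδ1 hτ hτ1 h)
  · exact NlR.mono (fun x q hx hq => Smq_mono e1 e2 hx hq) e3 e4 (tRonAll _ _ _ hδ.le hδ1 hτ.le hτ1 h)

/-- the display form with one parameter, smooth moduli -/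
theorem display_smooth {κ δ τ : ℝ} (hκ : 0 < κ) (hδ : 0 < δ) (hδ1 : δ ≤ 1 / 10) (hτ : 0 < τ) (hτ1 : τ ≤ 1 / 3)
    (h : SLA.CoreStmt (Hq (Smq 0 κ)) (1 / 2 + δ) τ) :
    ∃ δ0 : ℝ, 0 < δ0 ∧ NlA (Smq 0 δ0) δ0 ∧ NlR (Smq 0 δ0) δ0 δ0 := by
  set e : ℝ := min κ (min δ τ) with he
  have e2 : e ≤ κ := min_le_left _ _
  have e3 : e ≤ δ := (min_le_right _ _).trans (min_le_left _ _)
  have e4 : e ≤ τ := (min_le_right _ _).trans (min_le_right _ _)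
  refine ⟨e, lt_min hκ (lt_min hδ hτ), ?_, ?_⟩
  · exact NlA.mono (fun x q hx hq => Smq_mono le_rfl e2 hx hq) e3 (tFinAll _ _ _ hδ.le hδ1 hτ hτ1 h)
  · exact NlR.mono (fun x q hx hq => Smq_mono le_rfl e2 hx hq) e3 e4 (tRonAll _ _ _ hδ.le hδ1 hτ.le hτ1 h)

/-- q is x^κ-smooth -/
def Sq (κ : ℝ) : ℝ → ℕ → Prop := fun x q => ∀ p : ℕ, p.Prime → p ∣ q → (p : ℝ) ≤ x ^ κ

theorem Sq_mono {κ κ' x : ℝ} {q : ℕ} (hκ : κ ≤ κ') (hx : 3 ≤ x) (h : Sq κ x q) : Sq κ' x q :=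
  fun p hp hpq => (h p hp hpq).trans (Real.rpow_le_rpow_of_exponent_le (by linarith) hκ)

/-- the display form with one parameter, smooth moduli; this is the form to use: SLA.CoreStmt for the hypothesis Hq (Sq κ), i.e.
∀ q ∈ F, ∀ p prime, p ∣ q → p ≤ x^κ -/
theorem display_sq {κ δ τ : ℝ} (hκ : 0 < κ) (hδ : 0 < δ) (hδ1 : δ ≤ 1 / 10) (hτ : 0 < τ) (hτ1 : τ ≤ 1 / 3)
    (h : SLA.CoreStmt (Hq (Sq κ)) (1 / 2 + δ) τ) :
    ∃ δ0 : ℝ, 0 < δ0 ∧ NlA (Sq δ0) δ0 ∧ NlR (Sq δ0) δ0 δ0 := by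
  set e : ℝ := min κ (min δ τ) with he
  have e2 : e ≤ κ := min_le_left _ _
  have e3 : e ≤ δ := (min_le_right _ _).trans (min_le_left _ _)
  have e4 : e ≤ τ := (min_le_right _ _).trans (min_le_right _ _)
  refine ⟨e, lt_min hκ (lt_min hδ hτ), ?_, ?_⟩
  · exact NlA.mono (fun x q hx hq => Sq_mono e2 hx hq) e3 (tFinAll _ _ _ hδ.le hδ1 hτ hτ1 h)
  · exact NlR.mono (fun x q hx hq => Sq_mono e2 hx hq) e3 e4 (tRonAll _ _ _ hδ.le hδ1 hτ.le hτ1 h)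

end Pool.Agent.Lib.NLF
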