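import Pool.Agent.Lib.SLA.Stm
import Pool.Agent.Lib.MX.StmE

/-!
MP_00e23e_nt, project NL (all classes, no lock), chapter F (helper57): from the theorem for the von Mangoldt function to the final
forms, for moduli with an arbitrary property P x q.
-/

namespace Pool.Agent.Lib.NLF

open Finset Pool.Agent.Lib.EH3 Pool.Agent.Lib.TB Pool.Agent.Results.MP_00e23e_nt Pool.Agent.Lib.MI
open Pool.Agent.Lib.MX (Bd Mz En Sp Bd_nonneg Bd_mono rp_le rn_le log_le_T Tau_x)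

/-- the hypothesis of the chapters B and A: every modulus q ∈ F has the property P x q; nothing is assumed of the classes -/
def Hq (P : ℝ → ℕ → Prop) : SLA.Hyp := fun x _ _ F => ∀ q ∈ F, P x q

/-- q has a divisor m ≤ x^μ such that all primes of q / m are ≤ x^κ -/
def Smq (μ κ : ℝ) : ℝ → ℕ → Prop := fun x q => ∃ m : ℕ, m ∣ q ∧ (m : ℝ) ≤ x ^ μ ∧
  ∀ p : ℕ, p.Prime → p ∣ q / m → (p : ℝ) ≤ x ^ κ

/-- the Bombieri-Vinogradov form for all classes: squarefree moduli d ≤ x^(1/2+δ) with the property P x d, an arbitrary reduced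
class s d and an arbitrary y d ∈ [2, x] for each of them -/
def NlA (P : ℝ → ℕ → Prop) (δ : ℝ) : Prop := ∀ U : ℝ, 0 < U → ∃ C : ℝ,
  ∀ (x : ℝ) (s : ℕ → ℤ) (y : ℕ → ℝ) (M : Finset ℕ), 3 ≤ x → (∀ d, 2 ≤ y d ∧ y d ≤ x) →
  (∀ d ∈ M, Squarefree d ∧ (d : ℝ) ≤ x ^ (1 / 2 + δ) ∧ P x d ∧ Int.gcd (s d) d = 1) →
  ∑ d ∈ M, |resErr (y d) d (s d)| ≤ C * (x / (Real.log x) ^ U)

/-- the form with the comparison divisor t d ≤ x^τ: all primes of d / t d are > z; df y d t s = π(y; d, s) - π(y; t, s)/φ(d/t) -/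
def NlR (P : ℝ → ℕ → Prop) (δ τ : ℝ) : Prop := ∃ η A C : ℝ, 0 < η ∧ 0 ≤ A ∧ 0 ≤ C ∧
  ∀ (x z : ℝ) (s : ℕ → ℤ) (y : ℕ → ℝ) (t : ℕ → ℕ) (M : Finset ℕ), 3 ≤ x → 1 ≤ z → z ≤ x → (∀ d, 2 ≤ y d ∧ y d ≤ x) →
  (∀ d ∈ M, (Squarefree d ∧ (d : ℝ) ≤ x ^ (1 / 2 + δ) ∧ P x d ∧ Int.gcd (s d) d = 1) ∧ t d ∣ d ∧ (t d : ℝ) ≤ x ^ τ ∧
    ∀ p : ℕ, p.Prime → p ∣ d / t d → z < (p : ℝ)) →
  ∑ d ∈ M, |df (y d) d (t d) (s d)| ≤ C * (x * En A x / z ^ η)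

/-- Module Fin -/
def FinStmt : Prop := ∀ (P : ℝ → ℕ → Prop) (δ τ : ℝ), 0 ≤ δ → δ ≤ 1 / 10 → 0 < τ → τ ≤ 1 / 3 →
  SLA.CoreStmt (Hq P) (1 / 2 + δ) τ → NlA P δ

/-- Module Ron -/
def RonStmt : Prop := ∀ (P : ℝ → ℕ → Prop) (δ τ : ℝ), 0 ≤ δ → δ ≤ 1 / 10 → 0 ≤ τ → τ ≤ 1 / 3 →
  SLA.CoreStmt (Hq P) (1 / 2 + δ) τ → NlR P δ τ

end Pool.Agent.Lib.NLF
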