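import Pool.Agent.Lib.NLF.Def
import Pool.Agent.Lib.EH.Basic

/-!
MP_00e23e_nt, project NL (all classes, no lock), corollary (helper12): primes in EVERY reduced class of almost all smooth moduli,
below d ^ (2 - 2δ) (under GRH: below d ^ (2 + ε)).

Assume the theorem NlA (Smq μ κ) δ hold (squarefree moduli up to x ^ (1/2 + δ), maximum over all classes inside the sum). For all but at most
C D/(log D)^U of the squarefree d in (D, 2D] with Smq μ κ D d (μ = 0: all primes of d are ≤ D ^ κ) one has, with y = d ^ (2 - 2δ),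
|π(y; d, a) - li y/φ(d)| ≤ li y/(φ(d) (log D)^U) for EVERY class a coprime to d (CorA); in particular every reduced class
contains a prime p ≤ d ^ (2 - 2δ) (CorP). Proof: Markov, s d = a worst class, x = (2D)^(2 - 2δ), 2D ≤ x^(1/2 + δ).
-/

namespace Pool.Agent.Lib.NLF

open Finset Pool.Agent.Lib.EH3 Pool.Agent.Lib.TB Pool.Agent.Results.MP_00e23e_nt Pool.Agent.Lib.MI

/-- the moduli of the corollary: squarefree d in (D, 2D] with the property Smq μ κ D d -/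
def Dm (μ κ D : ℝ) (d : ℕ) : Prop := D < d ∧ (d : ℝ) ≤ 2 * D ∧ Squarefree d ∧ Smq μ κ D d

/-- the asymptotic formula in every reduced class of almost all moduli, at y = d ^ (2 - 2δ) -/
def CorA (μ κ δ : ℝ) : Prop := ∀ U : ℝ, 0 < U → ∃ C : ℝ, ∀ D : ℝ, 2 ≤ D →
  ({d : ℕ | Dm μ κ D d ∧ ∃ a : ℤ, Int.gcd a d = 1 ∧ li ((d : ℝ) ^ (2 - 2 * δ)) / ((d.totient : ℝ) * (Real.log D) ^ U) <
    |resErr ((d : ℝ) ^ (2 - 2 * δ)) d a|}.ncard : ℝ) ≤ C * (D / (Real.log D) ^ U)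

/-- almost all moduli have primes p ≤ d ^ (2 - 2δ) in every reduced class -/
def CorP (μ κ δ : ℝ) : Prop := ∀ U : ℝ, 0 < U → ∃ C : ℝ, ∀ D : ℝ, 2 ≤ D →
  ({d : ℕ | Dm μ κ D d ∧ ∃ a : ℤ, Int.gcd a d = 1 ∧
    ∀ p : ℕ, p.Prime → (p : ℝ) ≤ (d : ℝ) ^ (2 - 2 * δ) → ¬ (d : ℤ) ∣ (p : ℤ) - a}.ncard : ℝ) ≤ C * (D / (Real.log D) ^ U)

private lemma Cor_li {y : ℝ} (hy : 4 ≤ y) : y / (2 * Real.log y) ≤ li y := by
  have hlog : ∀ t : ℝ, 2 ≤ t → 0 < Real.log t := fun t ht => Real.log_pos (by linarith)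
  have hly : 0 < Real.log y := hlog y (by linarith)
  have h2y : (2 : ℝ) ≤ y := by linarith
  have hc : ContinuousOn (fun t : ℝ => (Real.log t)⁻¹) (Set.uIcc 2 y) := by
    rw [Set.uIcc_of_le h2y]
    apply ContinuousOn.inv₀
    · apply Real.continuousOn_log.mono
      intro t ht
      simp only [Set.mem_compl_iff, Set.mem_singleton_iff]
      have := ht.1
      linarith
    · intro t ht
      exact (hlog t ht.1).ne'
  have h1 : ∫ _t in (2 : ℝ)..y, (Real.log y)⁻¹ ≤ ∫ t in (2 : ℝ)..y, (Real.log t)⁻¹ := by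
    apply intervalIntegral.integral_mono_on h2y (by simp) hc.intervalIntegrable
    intro t ht
    have ht2 : 2 ≤ t := ht.1
    exact inv_anti₀ (hlog t ht2) (Real.log_le_log (by linarith) ht.2)
  rw [intervalIntegral.integral_const, smul_eq_mul] at h1
  unfold li
  refine le_trans ?_ h1
  rw [div_le_iff₀ (by positivity)]
  have h3 : (y - 2) * (Real.log y)⁻¹ * (2 * Real.log y) = 2 * (y - 2) := by
    field_simp
  rw [h3]
  linarith

private lemma Cor_fin {D : ℝ} (Q : ℕ → Prop) : {d : ℕ | (d : ℝ) ≤ 2 * D ∧ Q d}.Finite := by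
  apply (Set.finite_Iic ⌊2 * D⌋₊).subset
  intro d hd
  exact Nat.le_floor hd.1

private lemma Cor_triv {D : ℝ} (hD : 2 ≤ D) {A : Set ℕ} (hA : ∀ d ∈ A, D < d ∧ (d : ℝ) ≤ 2 * D) : (A.ncard : ℝ) ≤ 2 * D := by
  have h1 : A ⊆ ((Icc 1 ⌊2 * D⌋₊ : Finset ℕ) : Set ℕ) := by
    intro d hd
    obtain ⟨h2, h3⟩ := hA d hd
    rw [coe_Icc, Set.mem_Icc]
    refine ⟨?_, Nat.le_floor h3⟩
    have : (0 : ℝ) < d := by linarith
    exact_mod_cast this
  have h2 : A.ncard ≤ ⌊2 * D⌋₊ := by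
    calc A.ncard ≤ ((Icc 1 ⌊2 * D⌋₊ : Finset ℕ) : Set ℕ).ncard := Set.ncard_le_ncard h1 (Finset.finite_toSet _)
      _ = (Icc 1 ⌊2 * D⌋₊).card := Set.ncard_coe_finset _
      _ = ⌊2 * D⌋₊ := by simp
  calc (A.ncard : ℝ) ≤ (⌊2 * D⌋₊ : ℝ) := by exact_mod_cast h2
    _ ≤ 2 * D := Nat.floor_le (by linarith)

private lemma Cor_small {D U : ℝ} (hD : 2 ≤ D) (hD4 : D ≤ 4) (hU : 0 < U) {A : Set ℕ}
    (hA : ∀ d ∈ A, D < d ∧ (d : ℝ) ≤ 2 * D) : (A.ncard : ℝ) ≤ (2 * (Real.log 4) ^ U) * (D / (Real.log D) ^ U) := by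
  have h0 : 0 < Real.log D := Real.log_pos (by linarith)
  have h1 : (Real.log D) ^ U ≤ (Real.log 4) ^ U :=
    Real.rpow_le_rpow h0.le (Real.log_le_log (by linarith) hD4) hU.le
  have h2 : 0 < (Real.log D) ^ U := Real.rpow_pos_of_pos h0 U
  have h3 : 1 ≤ (Real.log 4) ^ U / (Real.log D) ^ U := (one_le_div h2).2 h1
  calc (A.ncard : ℝ) ≤ 2 * D := Cor_triv hD hA
    _ ≤ 2 * D * ((Real.log 4) ^ U / (Real.log D) ^ U) := le_mul_of_one_le_right (by linarith) h3
    _ = (2 * (Real.log 4) ^ U) * (D / (Real.log D) ^ U) := by ring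

private lemma Cor_smq {μ κ D x : ℝ} {d : ℕ} (hμ : 0 ≤ μ) (hκ : 0 ≤ κ) (hD : 0 ≤ D) (hx : D ≤ x) (h : Smq μ κ D d) :
    Smq μ κ x d := by
  obtain ⟨m, h1, h2, h3⟩ := h
  exact ⟨m, h1, h2.trans (Real.rpow_le_rpow hD hx hμ), fun p hp hpd => (h3 p hp hpd).trans (Real.rpow_le_rpow hD hx hκ)⟩

/-- the asymptotic formula -/
theorem corA {μ κ δ : ℝ} (hμ : 0 ≤ μ) (hκ : 0 ≤ κ) (hδ : 0 ≤ δ) (hδ1 : δ ≤ 1 / 10) (h : NlA (Smq μ κ) δ) : CorA μ κ δ := by
  classical
  intro U hU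
  obtain ⟨C0, hC0⟩ := h (2 * U + 1) (by linarith)
  refine ⟨16 * max C0 0 + 2 * (Real.log 4) ^ U, fun D hD => ?_⟩
  set e : ℝ := 2 - 2 * δ with he
  have hD0 : 0 < D := by linarith
  have hlD : 0 < Real.log D := Real.log_pos (by linarith)
  have hlU : 0 < (Real.log D) ^ U := Real.rpow_pos_of_pos hlD U
  have hl4 : 0 ≤ (Real.log 4) ^ U := Real.rpow_nonneg (Real.log_nonneg (by norm_num)) U
  have hm : 0 ≤ max C0 0 := le_max_right _ _
  set A : Set ℕ := {d : ℕ | Dm μ κ D d ∧ ∃ a : ℤ, Int.gcd a d = 1 ∧ li ((d : ℝ) ^ e) / ((d.totient : ℝ) * (Real.log D) ^ U) <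
    |resErr ((d : ℝ) ^ e) d a|} with hA
  have hAD : ∀ d ∈ A, D < d ∧ (d : ℝ) ≤ 2 * D := fun d hd => ⟨hd.1.1, hd.1.2.1⟩
  by_cases hD4 : D ≤ 4
  · have h1 := Cor_small hD hD4 hU hAD
    have h2 : 0 ≤ 16 * max C0 0 * (D / (Real.log D) ^ U) := by positivity
    rw [add_mul]
    linarith
  push Not at hD4
  have he1 : 1 ≤ e := by rw [he]; linarith
  have he2 : e ≤ 2 := by rw [he]; linarith
  -- the numbers x and y
  set x : ℝ := (2 * D) ^ e with hx
  have h2D : 1 ≤ 2 * D := by linarith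
  have hDx : 2 * D ≤ x := by
    calc 2 * D = (2 * D) ^ (1 : ℝ) := (Real.rpow_one _).symm
      _ ≤ (2 * D) ^ e := Real.rpow_le_rpow_of_exponent_le h2D he1
  have hx3 : 3 ≤ x := by linarith
  have hx0 : 0 < x := by linarith
  have hlx : Real.log D ≤ Real.log x := Real.log_le_log hD0 (by linarith)
  have hlx0 : 0 < Real.log x := by linarith
  have hlev : 2 * D ≤ x ^ (1 / 2 + δ) := by
    rw [hx, ← Real.rpow_mul (by linarith)]
    calc 2 * D = (2 * D) ^ (1 : ℝ) := (Real.rpow_one _).symm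
      _ ≤ (2 * D) ^ (e * (1 / 2 + δ)) := by
        apply Real.rpow_le_rpow_of_exponent_le h2D
        rw [he]
        nlinarith
  -- the bad moduli as a finite set
  set B : Finset ℕ := (Icc 1 ⌊2 * D⌋₊).filter (fun d => d ∈ A) with hB
  have hBA : (B : Set ℕ) = A := by
    ext d
    rw [hB, mem_coe, mem_filter, mem_Icc]
    refine ⟨fun h => h.2, fun h => ⟨⟨?_, Nat.le_floor (hAD d h).2⟩, h⟩⟩
    have h1 := (hAD d h).1
    have : (0 : ℝ) < d := by linarith
    exact_mod_cast this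
  have hcard : (A.ncard : ℝ) = (B.card : ℝ) := by rw [← hBA, Set.ncard_coe_finset]
  -- the worst class
  set s : ℕ → ℤ := fun d => if h : ∃ a : ℤ, Int.gcd a d = 1 ∧
    li ((d : ℝ) ^ e) / ((d.totient : ℝ) * (Real.log D) ^ U) < |resErr ((d : ℝ) ^ e) d a| then h.choose else 1 with hs
  set y : ℕ → ℝ := fun d => if D < d ∧ (d : ℝ) ≤ 2 * D then (d : ℝ) ^ e else 2 with hy
  have hsd : ∀ d ∈ B, Int.gcd (s d) d = 1 ∧
      li ((d : ℝ) ^ e) / ((d.totient : ℝ) * (Real.log D) ^ U) < |resErr ((d : ℝ) ^ e) d (s d)| := by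
    intro d hd
    have hdA : d ∈ A := (mem_filter.1 hd).2
    have hex : ∃ a : ℤ, Int.gcd a d = 1 ∧
      li ((d : ℝ) ^ e) / ((d.totient : ℝ) * (Real.log D) ^ U) < |resErr ((d : ℝ) ^ e) d a| := hdA.2
    have h1 : s d = hex.choose := by
      rw [hs]
      exact dif_pos hex
    rw [h1]
    exact hex.choose_spec
  have hyd : ∀ d ∈ B, y d = (d : ℝ) ^ e := by
    intro d hd
    rw [hy]
    exact if_pos (hAD d (mem_filter.1 hd).2)
  have hyb : ∀ d, 2 ≤ y d ∧ y d ≤ x := by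
    intro d
    rw [hy]
    by_cases hd : D < d ∧ (d : ℝ) ≤ 2 * D
    · simp only [hd, and_self, if_true]
      have hd1 : (1 : ℝ) ≤ d := by linarith [hd.1]
      constructor
      · calc (2 : ℝ) ≤ d := by linarith [hd.1]
          _ = (d : ℝ) ^ (1 : ℝ) := (Real.rpow_one _).symm
          _ ≤ (d : ℝ) ^ e := Real.rpow_le_rpow_of_exponent_le hd1 he1
      · exact Real.rpow_le_rpow (by linarith) hd.2 (by linarith)
    · simp only [hd, if_false]
      exact ⟨le_rfl, by linarith⟩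
  have hmain := hC0 x s y B hx3 hyb (fun d hd => by
    have hdA : d ∈ A := (mem_filter.1 hd).2
    obtain ⟨⟨g1, g2, g3, g4⟩, -⟩ := hdA
    exact ⟨g3, g2.trans hlev, Cor_smq hμ hκ hD0.le (by linarith) g4, (hsd d hd).1⟩)
  -- the lower bound of one term
  set t : ℝ := x / (16 * D * (Real.log x * (Real.log D) ^ U)) with ht
  have hterm : ∀ d ∈ B, t ≤ |resErr (y d) d (s d)| := by
    intro d hd
    obtain ⟨g1, g2⟩ := hAD d (mem_filter.1 hd).2
    have hd1 : (1 : ℝ) ≤ d := by linarith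
    have hd0 : (0 : ℝ) < d := by linarith
    rw [hyd d hd]
    refine le_trans ?_ (hsd d hd).2.le
    have k1 : x / 4 ≤ (d : ℝ) ^ e := by
      have k2 : (2 * D) ^ e ≤ (2 * (d : ℝ)) ^ e := Real.rpow_le_rpow (by linarith) (by linarith) (by linarith)
      rw [Real.mul_rpow (by norm_num) hd0.le] at k2
      have k3 : (2 : ℝ) ^ e ≤ 4 := by
        calc (2 : ℝ) ^ e ≤ (2 : ℝ) ^ (2 : ℝ) := Real.rpow_le_rpow_of_exponent_le (by norm_num) he2
          _ = 4 := by norm_num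
      have k4 : 0 ≤ (d : ℝ) ^ e := Real.rpow_nonneg hd0.le e
      rw [← hx] at k2
      nlinarith [mul_le_mul_of_nonneg_right k3 k4]
    have k5 : 4 ≤ (d : ℝ) ^ e := by
      calc (4 : ℝ) ≤ d := by linarith
        _ = (d : ℝ) ^ (1 : ℝ) := (Real.rpow_one _).symm
        _ ≤ (d : ℝ) ^ e := Real.rpow_le_rpow_of_exponent_le hd1 he1
    have k6 : (d : ℝ) ^ e ≤ x := Real.rpow_le_rpow hd0.le g2 (by linarith)
    have k7 := Cor_li k5
    have k8 : 0 < Real.log ((d : ℝ) ^ e) := Real.log_pos (by linarith)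
    have k9 : Real.log ((d : ℝ) ^ e) ≤ Real.log x := Real.log_le_log (by linarith) k6
    have k10 : x / (8 * Real.log x) ≤ li ((d : ℝ) ^ e) := by
      refine le_trans ?_ k7
      rw [div_le_div_iff₀ (by positivity) (by positivity)]
      nlinarith [mul_le_mul k1 k9 k8.le (by linarith : 0 ≤ (d : ℝ) ^ e)]
    have k11 : (0 : ℝ) < d.totient := by
      have : 0 < d.totient := Nat.totient_pos.2 (by exact_mod_cast hd0)
      exact_mod_cast this
    have k12 : (d.totient : ℝ) ≤ 2 * D := by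
      have : (d.totient : ℝ) ≤ d := by exact_mod_cast Nat.totient_le d
      linarith
    have k13 : 0 ≤ li ((d : ℝ) ^ e) := le_trans (by positivity) k10
    rw [ht]
    calc x / (16 * D * (Real.log x * (Real.log D) ^ U)) = x / (8 * Real.log x) / (2 * D * (Real.log D) ^ U) := by
          field_simp
          ring
      _ ≤ li ((d : ℝ) ^ e) / (2 * D * (Real.log D) ^ U) := div_le_div_of_nonneg_right k10 (by positivity)
      _ ≤ li ((d : ℝ) ^ e) / ((d.totient : ℝ) * (Real.log D) ^ U) :=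
          div_le_div_of_nonneg_left k13 (by positivity) (mul_le_mul_of_nonneg_right k12 hlU.le)
  have hsum : (B.card : ℝ) * t ≤ C0 * (x / (Real.log x) ^ (2 * U + 1)) := by
    refine le_trans ?_ hmain
    rw [← nsmul_eq_mul]
    exact card_nsmul_le_sum _ _ _ hterm
  have ht0 : 0 < t := by rw [ht]; positivity
  -- conclusion
  have hlxU : (Real.log x) ^ (2 * U + 1) = (Real.log x) ^ (2 * U) * Real.log x := by
    rw [Real.rpow_add hlx0, Real.rpow_one]
  have hlDU : (Real.log D) ^ (2 * U) = (Real.log D) ^ U * (Real.log D) ^ U := by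
    rw [← Real.rpow_add hlD]
    congr 1
    ring
  have hpow : (Real.log D) ^ (2 * U) ≤ (Real.log x) ^ (2 * U) := Real.rpow_le_rpow hlD.le hlx (by linarith)
  have hfin : (B.card : ℝ) * t ≤ (16 * max C0 0 * (D / (Real.log D) ^ U)) * t := by
    refine hsum.trans ?_
    calc C0 * (x / (Real.log x) ^ (2 * U + 1)) ≤ max C0 0 * (x / (Real.log x) ^ (2 * U + 1)) :=
          mul_le_mul_of_nonneg_right (le_max_left _ _) (by positivity)
      _ ≤ max C0 0 * (x / ((Real.log D) ^ (2 * U) * Real.log x)) := by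
          apply mul_le_mul_of_nonneg_left _ hm
          rw [hlxU]
          apply div_le_div_of_nonneg_left hx0.le (by positivity)
          exact mul_le_mul_of_nonneg_right hpow hlx0.le
      _ = (16 * max C0 0 * (D / (Real.log D) ^ U)) * t := by
          rw [hlDU, ht]
          field_simp
  have hB2 : (B.card : ℝ) ≤ 16 * max C0 0 * (D / (Real.log D) ^ U) := le_of_mul_le_mul_right hfin ht0
  rw [hcard, add_mul]
  have : 0 ≤ 2 * (Real.log 4) ^ U * (D / (Real.log D) ^ U) := by positivity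
  linarith

/-- primes in every reduced class -/
theorem corP {μ κ δ : ℝ} (hμ : 0 ≤ μ) (hκ : 0 ≤ κ) (hδ : 0 ≤ δ) (hδ1 : δ ≤ 1 / 10) (h : NlA (Smq μ κ) δ) : CorP μ κ δ := by
  classical
  intro U hU
  obtain ⟨C, hC⟩ := corA hμ hκ hδ hδ1 h U hU
  refine ⟨max C (2 * (Real.log 4) ^ U), fun D hD => ?_⟩
  have hD0 : 0 < D := by linarith
  have hlD : 0 < Real.log D := Real.log_pos (by linarith)
  have hlU : 0 < (Real.log D) ^ U := Real.rpow_pos_of_pos hlD U
  have hq : 0 ≤ D / (Real.log D) ^ U := by positivity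
  by_cases hD4 : D ≤ 4
  · refine (Cor_small hD hD4 hU (fun d hd => ?_)).trans (mul_le_mul_of_nonneg_right (le_max_right _ _) hq)
    exact ⟨hd.1.1, hd.1.2.1⟩
  push Not at hD4
  refine le_trans ?_ ((hC D hD).trans (mul_le_mul_of_nonneg_right (le_max_left _ _) hq))
  have hlD1 : 1 < Real.log D := by
    have h1 : Real.log 4 ≤ Real.log D := Real.log_le_log (by norm_num) hD4.le
    have h2 : Real.log 4 = 2 * Real.log 2 := by
      rw [show (4 : ℝ) = 2 ^ 2 by norm_num, Real.log_pow]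
      norm_num
    have h3 := Real.log_two_gt_d9
    linarith
  have hU1 : 1 < (Real.log D) ^ U := Real.one_lt_rpow hlD1 hU
  have hsub : {d : ℕ | Dm μ κ D d ∧ ∃ a : ℤ, Int.gcd a d = 1 ∧
      ∀ p : ℕ, p.Prime → (p : ℝ) ≤ (d : ℝ) ^ (2 - 2 * δ) → ¬ (d : ℤ) ∣ (p : ℤ) - a} ⊆
      {d : ℕ | Dm μ κ D d ∧ ∃ a : ℤ, Int.gcd a d = 1 ∧ li ((d : ℝ) ^ (2 - 2 * δ)) /
        ((d.totient : ℝ) * (Real.log D) ^ U) < |resErr ((d : ℝ) ^ (2 - 2 * δ)) d a|} := by
    rintro d ⟨hd, a, ha, hp⟩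
    refine ⟨hd, a, ha, ?_⟩
    obtain ⟨g1, g2, -, -⟩ := hd
    have hd1 : (1 : ℝ) ≤ d := by linarith
    have hd0 : (0 : ℝ) < d := by linarith
    set y : ℝ := (d : ℝ) ^ (2 - 2 * δ) with hy
    have hy4 : 4 ≤ y := by
      calc (4 : ℝ) ≤ d := by linarith
        _ = (d : ℝ) ^ (1 : ℝ) := (Real.rpow_one _).symm
        _ ≤ y := Real.rpow_le_rpow_of_exponent_le hd1 (by linarith)
    have h0 : resCount y d a = 0 := by
      unfold resCount
      rw [card_eq_zero, filter_eq_empty_iff]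
      rintro p hpm ⟨hpp, hpd⟩
      rw [mem_Icc] at hpm
      exact hp p hpp ((Nat.cast_le.2 hpm.2).trans (Nat.floor_le (by linarith))) hpd
    have hli : 0 < li y := lt_of_lt_of_le (div_pos (by linarith) (by
      have : 0 < Real.log y := Real.log_pos (by linarith)
      positivity)) (Cor_li hy4)
    have ht : (0 : ℝ) < d.totient := by
      have : 0 < d.totient := Nat.totient_pos.2 (by exact_mod_cast hd0)
      exact_mod_cast this
    have h1 : |resErr y d a| = li y / (d.totient : ℝ) := by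
      unfold resErr
      rw [h0, Nat.cast_zero, zero_sub, abs_neg, abs_of_pos (div_pos hli ht)]
    rw [h1]
    apply div_lt_div_of_pos_left hli ht
    exact lt_mul_of_one_lt_right ht hU1
  have hfin : {d : ℕ | Dm μ κ D d ∧ ∃ a : ℤ, Int.gcd a d = 1 ∧ li ((d : ℝ) ^ (2 - 2 * δ)) /
      ((d.totient : ℝ) * (Real.log D) ^ U) < |resErr ((d : ℝ) ^ (2 - 2 * δ)) d a|}.Finite := by
    apply (Cor_fin (D := D) (fun _ => True)).subset
    rintro d ⟨hd, -⟩
    exact ⟨hd.2.1, trivial⟩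
  exact_mod_cast Set.ncard_le_ncard hsub hfin

/-- the smooth moduli: all primes of d are ≤ D ^ κ -/
theorem Dm_zero {κ D : ℝ} {d : ℕ} (h : D < d ∧ (d : ℝ) ≤ 2 * D ∧ Squarefree d ∧ ∀ p : ℕ, p.Prime → p ∣ d → (p : ℝ) ≤ D ^ κ) :
    Dm 0 κ D d := by
  obtain ⟨h1, h2, h3, h4⟩ := h
  refine ⟨h1, h2, h3, 1, one_dvd d, ?_, fun p hp hpd => h4 p hp ?_⟩
  · rw [Real.rpow_zero, Nat.cast_one]
  · rwa [Nat.div_one] at hpd

end Pool.Agent.Lib.NLF
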