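import Pool.Agent.Lib.NLF.Ron
import Mathlib.NumberTheory.Chebyshev

/-!
MP_00e23e_nt, project NL (all classes, no lock), chapter F, module Lin (helper57): for almost all moduli d ∈ (D, 2D] without small
prime factors the prime number theorem holds with a power saving in EVERY reduced class and for all y from D^(2-δ) to D^A.
-/

namespace Pool.Agent.Lib.NLF

open Finset Pool.Agent.Lib.EH3 Pool.Agent.Lib.TB Pool.Agent.Results.MP_00e23e_nt Pool.Agent.Lib.MI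
open Pool.Agent.Lib.MX (Bd Mz En Sp Bd_nonneg Bd_mono rp_le rn_le log_le_T Tau_x)

/-- the class modulo 1 -/
lemma Lin_one (y : ℝ) (a : ℤ) : resCount y 1 a = resCount y 1 0 := by
  unfold resCount
  congr 1
  refine filter_congr fun p _ => ?_
  simp

private lemma Lin_term {η D x y : ℝ} {d : ℕ} {a : ℤ} (hη : 0 < η) (hη1 : η ≤ 1 / 4) (hD : 2 ≤ D) (hx : 3 ≤ x)
    (hd0 : 1 ≤ d) (hd : (d : ℝ) ≤ 2 * D) (hy : x / 2 ≤ y)
    (hbad : y ^ (1 - η) / (d.totient : ℝ) < |(resCount y d a : ℝ) - (resCount y 1 0 : ℝ) / (d.totient : ℝ)|) :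
    x ^ (1 - η) / (4 * D) ≤ |df y d 1 a| := by
  have hx0 : 0 < x := by linarith
  have h1 : df y d 1 a = (resCount y d a : ℝ) - (resCount y 1 0 : ℝ) / (d.totient : ℝ) := by
    unfold df
    rw [Lin_one, Nat.div_one]
  rw [h1]
  refine le_trans ?_ hbad.le
  have ht1 : (1 : ℝ) ≤ (d.totient : ℝ) := by
    have : 1 ≤ d.totient := Nat.totient_pos.2 hd0
    exact_mod_cast this
  have ht2 : (d.totient : ℝ) ≤ 2 * D := by
    have : d.totient ≤ d := Nat.totient_le d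
    exact (by exact_mod_cast this : (d.totient : ℝ) ≤ (d : ℝ)).trans hd
  have hxy : x ^ (1 - η) / 2 ≤ y ^ (1 - η) := by
    have h2 : (x / 2) ^ (1 - η) ≤ y ^ (1 - η) := Real.rpow_le_rpow (by linarith) hy (by linarith)
    refine le_trans ?_ h2
    rw [Real.div_rpow hx0.le (by norm_num)]
    have h3 : (2 : ℝ) ^ (1 - η) ≤ 2 := by
      calc (2 : ℝ) ^ (1 - η) ≤ (2 : ℝ) ^ (1 : ℝ) := Real.rpow_le_rpow_of_exponent_le (by norm_num) (by linarith)
        _ = 2 := Real.rpow_one 2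
    exact div_le_div_of_nonneg_left (Real.rpow_nonneg hx0.le _) (by positivity) h3
  have hxp : 0 ≤ x ^ (1 - η) := Real.rpow_nonneg hx0.le _
  calc x ^ (1 - η) / (4 * D) = x ^ (1 - η) / 2 / (2 * D) := by
        rw [div_div]
        congr 1
        ring
    _ ≤ y ^ (1 - η) / (2 * D) := div_le_div_of_nonneg_right hxy (by linarith)
    _ ≤ y ^ (1 - η) / (d.totient : ℝ) := div_le_div_of_nonneg_left (by linarith) (by linarith) ht2

/-- almost all moduli: power saving in every reduced class, for all y from D^(2-δ) to D^A -/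
theorem NlR.almost {P : ℝ → ℕ → Prop} {δ τ : ℝ} (h : NlR P δ τ) (hδ : 0 < δ) (hδ1 : δ ≤ 1 / 10) (hτ : 0 ≤ τ)
    (hP : ∀ (x x' : ℝ) (q : ℕ), 2 ≤ x → x ≤ x' → P x q → P x' q) {μ A : ℝ} (hμ : 0 < μ) (hA : 2 ≤ A) :
    ∃ η C : ℝ, 0 < η ∧ η ≤ 1 / 4 ∧ 0 ≤ C ∧ ∀ (D : ℝ) (B : Finset ℕ), 2 ≤ D →
    (∀ d ∈ B, (Squarefree d ∧ D < d ∧ (d : ℝ) ≤ 2 * D ∧ P D d ∧ ∀ p : ℕ, p.Prime → p ∣ d → D ^ μ < (p : ℝ)) ∧
      ∃ (a : ℤ) (y : ℝ), Int.gcd a d = 1 ∧ D ^ (2 - δ) ≤ y ∧ y ≤ D ^ A ∧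
        y ^ (1 - η) / (d.totient : ℝ) < |(resCount y d a : ℝ) - (resCount y 1 0 : ℝ) / (d.totient : ℝ)|) →
    (B.card : ℝ) ≤ C * D ^ (1 - η) := by
  classical
  have hA1 : 0 < A + 1 := by linarith
  obtain ⟨η1, C1, hη1, H⟩ := h.power (μ / (A + 1)) (by positivity)
  set η : ℝ := min (η1 / 4) (1 / 4) with hη
  have hη0 : 0 < η := lt_min (by linarith) (by norm_num)
  have hη4 : η ≤ 1 / 4 := min_le_right _ _
  have hηη : 4 * η ≤ η1 := by
    have : η ≤ η1 / 4 := min_le_left _ _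
    linarith
  set D0 : ℝ := (2 : ℝ) ^ (1 / δ) with hD0
  have hD00 : 0 < D0 := Real.rpow_pos_of_pos (by norm_num) _
  set K0 : ℝ := 2 * A / η + 1 with hK0
  have hK00 : 0 ≤ K0 := by positivity
  refine ⟨η, 2 * D0 + K0 * (4 * |C1|), hη0, hη4, by positivity, ?_⟩
  intro D B hD hB
  have hD1 : 1 ≤ D := by linarith
  have hDpos : 0 < D := by linarith
  have hDp : 1 ≤ D ^ (1 - η) := Real.one_le_rpow hD1 (by linarith)
  by_cases hDD : D < D0
  · have h1 : (B.card : ℝ) ≤ 2 * D := by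
      have hsub : B ⊆ Icc 1 ⌊2 * D⌋₊ := by
        intro d hd
        obtain ⟨⟨h3, h5, h4, _⟩, _⟩ := hB d hd
        rw [mem_Icc]
        exact ⟨Nat.one_le_iff_ne_zero.2 h3.ne_zero, Nat.le_floor h4⟩
      have c1 := Finset.card_le_card hsub
      rw [Nat.card_Icc, Nat.add_sub_cancel] at c1
      have c2 : (B.card : ℝ) ≤ (⌊2 * D⌋₊ : ℝ) := by exact_mod_cast c1
      exact c2.trans (Nat.floor_le (by linarith))
    have h2 : 0 ≤ K0 * (4 * |C1|) := by positivity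
    calc (B.card : ℝ) ≤ 2 * D0 * 1 := by linarith
      _ ≤ (2 * D0 + K0 * (4 * |C1|)) * D ^ (1 - η) :=
        mul_le_mul (by linarith) hDp (by norm_num) (by positivity)
  push Not at hDD
  have hDδ : 2 ≤ D ^ δ := by
    calc (2 : ℝ) = ((2 : ℝ) ^ (1 / δ)) ^ δ := by
          rw [← Real.rpow_mul (by norm_num), one_div_mul_cancel hδ.ne', Real.rpow_one]
      _ ≤ D ^ δ := Real.rpow_le_rpow hD00.le hDD hδ.le
  have hDX : D ≤ D ^ (2 - δ) := by
    calc D = D ^ (1 : ℝ) := (Real.rpow_one D).symm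
      _ ≤ D ^ (2 - δ) := Real.rpow_le_rpow_of_exponent_le hD1 (by linarith)
  have hX0 : 0 < D ^ (2 - δ) := Real.rpow_pos_of_pos hDpos _
  -- one dyadic range
  have hone : ∀ (x : ℝ) (M : Finset ℕ) (a : ℕ → ℤ) (y : ℕ → ℝ), 2 * D ^ (2 - δ) ≤ x → x ≤ D ^ (A + 1) →
      (∀ d ∈ M, (Squarefree d ∧ D < d ∧ (d : ℝ) ≤ 2 * D ∧ P D d ∧ ∀ p : ℕ, p.Prime → p ∣ d → D ^ μ < (p : ℝ)) ∧
        Int.gcd (a d) d = 1 ∧ x / 2 ≤ y d ∧ y d ≤ x ∧
        (y d) ^ (1 - η) / (d.totient : ℝ) <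
          |(resCount (y d) d (a d) : ℝ) - (resCount (y d) 1 0 : ℝ) / (d.totient : ℝ)|) →
      (M.card : ℝ) ≤ 4 * |C1| * D ^ (1 - 3 * η) := by
    intro x M a y hx1 hx2 hM
    have hx4 : 4 ≤ x := by linarith
    have hx3 : 3 ≤ x := by linarith
    have hx0 : 0 < x := by linarith
    have hx1' : 1 ≤ x := by linarith
    have hDx : D ≤ x := by linarith
    have f1 := H x a (fun d => if d ∈ M then y d else 2) (fun _ => 1) M hx3
      (by
        intro d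
        by_cases hd : d ∈ M
        · obtain ⟨_, _, c1, c2, _⟩ := hM d hd
          simp only [hd, if_true]
          exact ⟨by linarith, c2⟩
        · simp only [hd, if_false]
          exact ⟨le_rfl, by linarith⟩)
      (by
        intro d hd
        obtain ⟨⟨b1, b2, b3, b4, b5⟩, c0, c1, c2, c3⟩ := hM d hd
        refine ⟨⟨b1, ?_, hP D x d hD hDx b4, c0⟩, one_dvd _, ?_, ?_⟩
        · calc (d : ℝ) ≤ 2 * D := b3
            _ ≤ D ^ δ * D := mul_le_mul_of_nonneg_right hDδ hDpos.le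
            _ = D ^ (δ + 1) := by rw [Real.rpow_add hDpos, Real.rpow_one]
            _ ≤ D ^ ((2 - δ) * (1 / 2 + δ)) := Real.rpow_le_rpow_of_exponent_le hD1 (by nlinarith)
            _ = (D ^ (2 - δ)) ^ (1 / 2 + δ) := by rw [Real.rpow_mul hDpos.le]
            _ ≤ x ^ (1 / 2 + δ) := Real.rpow_le_rpow hX0.le (by linarith) (by linarith)
        · rw [Nat.cast_one]
          exact Real.one_le_rpow hx1' hτ
        · intro p hp hpd
          rw [Nat.div_one] at hpd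
          refine lt_of_le_of_lt ?_ (b5 p hp hpd)
          calc x ^ (μ / (A + 1)) ≤ (D ^ (A + 1)) ^ (μ / (A + 1)) :=
                Real.rpow_le_rpow hx0.le hx2 (by positivity)
            _ = D ^ μ := by
              rw [← Real.rpow_mul hDpos.le]
              congr 1
              field_simp)
    have f2 : ∑ _d ∈ M, x ^ (1 - η) / (4 * D) ≤ C1 * x ^ (1 - η1) := by
      refine le_trans (sum_le_sum fun d hd => ?_) f1
      obtain ⟨⟨b1, b2, b3, b4, b5⟩, c0, c1, c2, c3⟩ := hM d hd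
      simp only [hd, if_true]
      exact Lin_term hη0 hη4 hD hx3 (Nat.one_le_iff_ne_zero.2 b1.ne_zero) b3 c1 c3
    rw [sum_const, nsmul_eq_mul] at f2
    have hxp : 0 < x ^ (1 - η) := Real.rpow_pos_of_pos hx0 _
    have f3 : (M.card : ℝ) ≤ 4 * D * (C1 * x ^ (1 - η1)) / x ^ (1 - η) := by
      rw [le_div_iff₀ hxp]
      have e1 : (M.card : ℝ) * (x ^ (1 - η) / (4 * D)) = (M.card : ℝ) * x ^ (1 - η) / (4 * D) := by ring
      rw [e1, div_le_iff₀ (by positivity)] at f2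
      linarith
    have f4 : 4 * D * (C1 * x ^ (1 - η1)) / x ^ (1 - η) = 4 * C1 * (D * x ^ (η - η1)) := by
      have e1 : x ^ (1 - η1) = x ^ (η - η1) * x ^ (1 - η) := by
        rw [← Real.rpow_add hx0]
        congr 1
        ring
      rw [e1]
      field_simp
    rw [f4] at f3
    refine f3.trans ?_
    have f5 : x ^ (η - η1) ≤ D ^ (-(3 * η)) := by
      calc x ^ (η - η1) ≤ x ^ (-(3 * η)) := Real.rpow_le_rpow_of_exponent_le hx1' (by linarith)
        _ ≤ D ^ (-(3 * η)) := Real.rpow_le_rpow_of_nonpos hDpos hDx (by linarith)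
    have f6 : D * x ^ (η - η1) ≤ D ^ (1 - 3 * η) := by
      calc D * x ^ (η - η1) ≤ D * D ^ (-(3 * η)) := mul_le_mul_of_nonneg_left f5 hDpos.le
        _ = D ^ (1 : ℝ) * D ^ (-(3 * η)) := by rw [Real.rpow_one]
        _ = D ^ (1 - 3 * η) := by
          rw [← Real.rpow_add hDpos]
          congr 1
    have f7 : 0 ≤ D * x ^ (η - η1) := by positivity
    calc 4 * C1 * (D * x ^ (η - η1)) ≤ 4 * |C1| * (D * x ^ (η - η1)) :=
          mul_le_mul_of_nonneg_right (by linarith [le_abs_self C1]) f7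
      _ ≤ 4 * |C1| * D ^ (1 - 3 * η) := mul_le_mul_of_nonneg_left f6 (by positivity)
  -- choice of the class and of y
  have hch : ∀ d : ℕ, ∃ (a : ℤ) (y : ℝ), d ∈ B → (Int.gcd a d = 1 ∧ D ^ (2 - δ) ≤ y ∧ y ≤ D ^ A ∧
      y ^ (1 - η) / (d.totient : ℝ) < |(resCount y d a : ℝ) - (resCount y 1 0 : ℝ) / (d.totient : ℝ)|) := by
    intro d
    by_cases hd : d ∈ B
    · obtain ⟨_, a, y, hay⟩ := hB d hd
      exact ⟨a, y, fun _ => hay⟩
    · exact ⟨0, 0, fun hd' => absurd hd' hd⟩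
  choose a y hay using hch
  set L : ℕ → ℝ := fun d => Real.logb 2 (y d / D ^ (2 - δ)) with hL
  set K : ℕ := ⌊A * Real.logb 2 D⌋₊ + 1 with hK
  have hlogb : 0 ≤ Real.logb 2 D := Real.logb_nonneg (by norm_num) hD1
  have hkey : ∀ d ∈ B, ⌊L d⌋₊ < K ∧ 2 * D ^ (2 - δ) ≤ 2 * 2 ^ ⌊L d⌋₊ * D ^ (2 - δ) ∧
      2 * 2 ^ ⌊L d⌋₊ * D ^ (2 - δ) ≤ D ^ (A + 1) ∧ 2 * 2 ^ ⌊L d⌋₊ * D ^ (2 - δ) / 2 ≤ y d ∧
      y d ≤ 2 * 2 ^ ⌊L d⌋₊ * D ^ (2 - δ) := by
    intro d hd
    obtain ⟨_, c1, c2, _⟩ := hay d hd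
    have hq1 : 1 ≤ y d / D ^ (2 - δ) := by
      rw [le_div_iff₀ hX0, one_mul]
      exact c1
    have hq0 : 0 < y d / D ^ (2 - δ) := by linarith
    have hL0 : 0 ≤ L d := Real.logb_nonneg (by norm_num) hq1
    have hLe : (2 : ℝ) ^ (L d) = y d / D ^ (2 - δ) := Real.rpow_logb (by norm_num) (by norm_num) hq0
    have g1 : ((⌊L d⌋₊ : ℕ) : ℝ) ≤ L d := Nat.floor_le hL0
    have g2 : L d < ((⌊L d⌋₊ : ℕ) : ℝ) + 1 := Nat.lt_floor_add_one _
    have g3 : (2 : ℝ) ^ ⌊L d⌋₊ ≤ y d / D ^ (2 - δ) := by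
      rw [← hLe, ← Real.rpow_natCast]
      exact Real.rpow_le_rpow_of_exponent_le (by norm_num) g1
    have g4 : y d / D ^ (2 - δ) ≤ 2 * 2 ^ ⌊L d⌋₊ := by
      rw [← hLe]
      calc (2 : ℝ) ^ (L d) ≤ (2 : ℝ) ^ (((⌊L d⌋₊ : ℕ) : ℝ) + 1) :=
            Real.rpow_le_rpow_of_exponent_le (by norm_num) g2.le
        _ = 2 * 2 ^ ⌊L d⌋₊ := by
          rw [Real.rpow_add (by norm_num), Real.rpow_natCast, Real.rpow_one]
          ring
    rw [le_div_iff₀ hX0] at g3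
    rw [div_le_iff₀ hX0] at g4
    have g5 : (1 : ℝ) ≤ 2 ^ ⌊L d⌋₊ := one_le_pow₀ (by norm_num)
    refine ⟨?_, ?_, ?_, ?_, g4⟩
    · have e1 : L d ≤ A * Real.logb 2 D := by
        have e2 : y d / D ^ (2 - δ) ≤ D ^ A := by
          refine (div_le_self (by linarith) ?_).trans c2
          linarith
        calc L d ≤ Real.logb 2 (D ^ A) := Real.logb_le_logb_of_le (by norm_num) hq0 e2
          _ = A * Real.logb 2 D := Real.logb_rpow_eq_mul_logb_of_pos hDpos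
      exact Nat.lt_succ_of_le (Nat.floor_le_floor e1)
    · have : 0 ≤ (2 ^ ⌊L d⌋₊ - 1) * D ^ (2 - δ) := mul_nonneg (by linarith) hX0.le
      nlinarith
    · calc 2 * 2 ^ ⌊L d⌋₊ * D ^ (2 - δ) = 2 * (2 ^ ⌊L d⌋₊ * D ^ (2 - δ)) := by ring
        _ ≤ D * D ^ A := mul_le_mul hD (g3.trans c2) (by positivity) hDpos.le
        _ = D ^ (A + 1) := by
          rw [Real.rpow_add hDpos, Real.rpow_one]
          ring
    · linarith
  have hsum : (B.card : ℝ) ≤ K * (4 * |C1| * D ^ (1 - 3 * η)) := by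
    have e1 : B.card = ∑ k ∈ range K, (B.filter (fun d => ⌊L d⌋₊ = k)).card :=
      card_eq_sum_card_fiberwise fun d hd => mem_range.2 (hkey d hd).1
    rw [e1]
    push_cast
    calc ∑ k ∈ range K, ((B.filter (fun d => ⌊L d⌋₊ = k)).card : ℝ)
        ≤ ∑ _k ∈ range K, 4 * |C1| * D ^ (1 - 3 * η) := by
          refine sum_le_sum fun k _ => ?_
          rcases (B.filter (fun d => ⌊L d⌋₊ = k)).eq_empty_or_nonempty with h0 | ⟨d0, hd0⟩
          · rw [h0, card_empty, Nat.cast_zero]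
            positivity
          · obtain ⟨hd0B, hd0k⟩ := mem_filter.1 hd0
            obtain ⟨_, k1, k2, _, _⟩ := hkey d0 hd0B
            rw [hd0k] at k1 k2
            refine hone (2 * 2 ^ k * D ^ (2 - δ)) _ a y k1 k2 fun d hd => ?_
            obtain ⟨hdB, hdk⟩ := mem_filter.1 hd
            obtain ⟨_, _, _, k4, k5⟩ := hkey d hdB
            rw [hdk] at k4 k5
            obtain ⟨c0, _, _, c3⟩ := hay d hdB
            exact ⟨(hB d hdB).1, c0, k4, k5, c3⟩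
      _ = K * (4 * |C1| * D ^ (1 - 3 * η)) := by rw [sum_const, card_range, nsmul_eq_mul]
  have hKb : (K : ℝ) ≤ K0 * D ^ η := by
    have e1 : ((⌊A * Real.logb 2 D⌋₊ : ℕ) : ℝ) ≤ A * Real.logb 2 D := Nat.floor_le (by positivity)
    have e2 : Real.log D ≤ D ^ η / η := Real.log_le_rpow_div hDpos.le hη0
    have e3 : Real.logb 2 D ≤ 2 * (D ^ η / η) := by
      unfold Real.logb
      rw [div_le_iff₀ (Real.log_pos (by norm_num))]
      have e4 : (1 : ℝ) / 2 ≤ Real.log 2 := by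
        have := Real.log_two_gt_d9
        linarith
      have e5 : 0 ≤ D ^ η / η := by positivity
      nlinarith
    have e6 : 1 ≤ D ^ η := Real.one_le_rpow hD1 hη0.le
    rw [hK, hK0]
    push_cast
    calc ((⌊A * Real.logb 2 D⌋₊ : ℕ) : ℝ) + 1 ≤ A * (2 * (D ^ η / η)) + 1 * D ^ η := by
          have e7 : A * Real.logb 2 D ≤ A * (2 * (D ^ η / η)) := mul_le_mul_of_nonneg_left e3 (by linarith)
          linarith
      _ = (2 * A / η + 1) * D ^ η := by ring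
  have hfin : D ^ η * D ^ (1 - 3 * η) ≤ D ^ (1 - η) := by
    rw [← Real.rpow_add hDpos]
    exact Real.rpow_le_rpow_of_exponent_le hD1 (by linarith)
  calc (B.card : ℝ) ≤ K * (4 * |C1| * D ^ (1 - 3 * η)) := hsum
    _ ≤ (K0 * D ^ η) * (4 * |C1| * D ^ (1 - 3 * η)) := mul_le_mul_of_nonneg_right hKb (by positivity)
    _ = K0 * (4 * |C1|) * (D ^ η * D ^ (1 - 3 * η)) := by ring
    _ ≤ K0 * (4 * |C1|) * D ^ (1 - η) := mul_le_mul_of_nonneg_left hfin (by positivity)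
    _ ≤ (2 * D0 + K0 * (4 * |C1|)) * D ^ (1 - η) :=
      mul_le_mul_of_nonneg_right (by linarith) (by linarith)

end Pool.Agent.Lib.NLF
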