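import Pool.Agent.Lib.NLF.Lin

/-!
MP_00e23e_nt, project NL (all classes, no lock), chapter F, module Lip (helper57): for almost all moduli d ∈ (D, 2D] without small
prime factors every reduced class contains about the expected number of primes p ≤ D^(2-δ).
-/

namespace Pool.Agent.Lib.NLF

open Finset Pool.Agent.Lib.EH3 Pool.Agent.Lib.TB Pool.Agent.Results.MP_00e23e_nt Pool.Agent.Lib.MI
open Pool.Agent.Lib.MX (Bd Mz En Sp Bd_nonneg Bd_mono rp_le rn_le log_le_T Tau_x)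

/-- the number of all primes ≤ y -/
lemma Lip_pi (y : ℝ) : resCount y 1 0 = Nat.primeCounting ⌊y⌋₊ := by
  unfold resCount
  rw [Nat.primeCounting, Nat.primeCounting', Nat.count_eq_card_filter_range]
  congr 1
  ext p
  rw [mem_filter, mem_filter, mem_Icc, mem_range]
  constructor
  · rintro ⟨⟨_, h2⟩, h3, _⟩
    exact ⟨by omega, h3⟩
  · rintro ⟨h1, h2⟩
    exact ⟨⟨h2.one_lt.le, by omega⟩, h2, by simp⟩

/-- π(y) ≥ 2 y^(1-η) for large y -/
lemma Lip_large {η : ℝ} (hη : 0 < η) : ∃ y0 : ℝ, 3 ≤ y0 ∧ ∀ y : ℝ, y0 ≤ y → 2 * y ^ (1 - η) ≤ (resCount y 1 0 : ℝ) := by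
  set y0 : ℝ := max 100 ((32 / η) ^ (2 / η)) with hy0
  refine ⟨y0, le_trans (by norm_num) (le_max_left _ _), fun y hy => ?_⟩
  have hy100 : 100 ≤ y := (le_max_left _ _).trans hy
  have hy2 : (32 / η) ^ (2 / η) ≤ y := (le_max_right _ _).trans hy
  have hypos : 0 < y := by linarith
  have hy1 : 1 < y := by linarith
  rw [Lip_pi]
  have h1 := Chebyshev.pi_ge' hy1
  have hlog : 0 < Real.log y := Real.log_pos hy1
  -- log y ≤ (2/η) y^(η/2)
  have h2 : Real.log y ≤ y ^ (η / 2) / (η / 2) := Real.log_le_rpow_div hypos.le (by positivity)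
  -- 32/η ≤ y^(η/2)
  have h3 : 32 / η ≤ y ^ (η / 2) := by
    calc 32 / η = ((32 / η) ^ (2 / η)) ^ (η / 2) := by
          rw [← Real.rpow_mul (by positivity)]
          have : 2 / η * (η / 2) = 1 := by field_simp
          rw [this, Real.rpow_one]
      _ ≤ y ^ (η / 2) := Real.rpow_le_rpow (by positivity) hy2 (by positivity)
  -- numerator ≥ y/4
  have h4 : y / 4 ≤ (y - 1) * Real.log 2 - Real.log (y + 2) := by
    have e1 := Real.log_two_gt_d9
    have e2 : Real.log (y + 2) ≤ (y + 2) ^ ((1 : ℝ) / 2) / (1 / 2) := Real.log_le_rpow_div (by linarith) (by norm_num)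
    have e3 : (y + 2) ^ ((1 : ℝ) / 2) = Real.sqrt (y + 2) := (Real.sqrt_eq_rpow _).symm
    rw [e3] at e2
    have e4 : Real.sqrt (y + 2) ≤ (y + 2) / 10 := by
      rw [Real.sqrt_le_left (by linarith)]
      nlinarith
    nlinarith
  have h5 : y / 4 / Real.log y ≤ (Nat.primeCounting ⌊y⌋₊ : ℝ) :=
    le_trans (div_le_div_of_nonneg_right h4 hlog.le) h1
  refine le_trans ?_ h5
  rw [le_div_iff₀ hlog]
  have h6 : Real.log y ≤ 2 / η * y ^ (η / 2) := by
    calc Real.log y ≤ y ^ (η / 2) / (η / 2) := h2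
      _ = 2 / η * y ^ (η / 2) := by field_simp
  have h7 : 0 < y ^ (η / 2) := Real.rpow_pos_of_pos hypos _
  have h8 : 0 < y ^ (1 - η) := Real.rpow_pos_of_pos hypos _
  have h9 : y ^ (1 - η) * (y ^ (η / 2) * y ^ (η / 2)) = y := by
    rw [← Real.rpow_add hypos, ← Real.rpow_add hypos]
    have : 1 - η + (η / 2 + η / 2) = 1 := by ring
    rw [this, Real.rpow_one]
  have h10 : 16 * (2 / η) ≤ y ^ (η / 2) := by
    have : 16 * (2 / η) = 32 / η := by ring
    rw [this]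
    exact h3
  calc 2 * y ^ (1 - η) * Real.log y ≤ 2 * y ^ (1 - η) * (2 / η * y ^ (η / 2)) :=
        mul_le_mul_of_nonneg_left h6 (by positivity)
    _ ≤ 2 * y ^ (1 - η) * (y ^ (η / 2) / 8 * y ^ (η / 2)) := by
        refine mul_le_mul_of_nonneg_left (mul_le_mul_of_nonneg_right ?_ h7.le) (by positivity)
        linarith
    _ = (y ^ (1 - η) * (y ^ (η / 2) * y ^ (η / 2))) / 4 := by ring
    _ = y / 4 := by rw [h9]

/-- almost all moduli: every reduced class contains at least half of the expected number of primes p ≤ D^(2-δ), in particular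
one prime -/
theorem NlR.least {P : ℝ → ℕ → Prop} {δ τ : ℝ} (h : NlR P δ τ) (hδ : 0 < δ) (hδ1 : δ ≤ 1 / 10) (hτ : 0 ≤ τ)
    (hP : ∀ (x x' : ℝ) (q : ℕ), 2 ≤ x → x ≤ x' → P x q → P x' q) {μ : ℝ} (hμ : 0 < μ) :
    ∃ η C : ℝ, 0 < η ∧ 0 ≤ C ∧ ∀ (D : ℝ) (B : Finset ℕ), 2 ≤ D →
    (∀ d ∈ B, (Squarefree d ∧ D < d ∧ (d : ℝ) ≤ 2 * D ∧ P D d ∧ ∀ p : ℕ, p.Prime → p ∣ d → D ^ μ < (p : ℝ)) ∧
      ∃ a : ℤ, Int.gcd a d = 1 ∧
        ((resCount (D ^ (2 - δ)) d a : ℝ) < (Nat.primeCounting ⌊D ^ (2 - δ)⌋₊ : ℝ) / (2 * (d.totient : ℝ)) ∨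
          ∀ p : ℕ, p.Prime → (p : ℝ) ≤ D ^ (2 - δ) → ¬ (d : ℤ) ∣ (p : ℤ) - a)) →
    (B.card : ℝ) ≤ C * D ^ (1 - η) := by
  obtain ⟨η, C, hη, hη4, hC, H⟩ := h.almost hδ hδ1 hτ hP hμ (le_refl (2 : ℝ))
  obtain ⟨y0, hy3, hy⟩ := Lip_large hη
  refine ⟨η, C + 2 * y0, hη, by positivity, fun D B hD hB => ?_⟩
  have hD1 : 1 ≤ D := by linarith
  have hDpos : 0 < D := by linarith
  have hDp : 1 ≤ D ^ (1 - η) := Real.one_le_rpow hD1 (by linarith)
  have hDX : D ≤ D ^ (2 - δ) := by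
    calc D = D ^ (1 : ℝ) := (Real.rpow_one D).symm
      _ ≤ D ^ (2 - δ) := Real.rpow_le_rpow_of_exponent_le hD1 (by linarith)
  by_cases hDD : D < y0
  · have h1 : (B.card : ℝ) ≤ 2 * D := by
      have hsub : B ⊆ Icc 1 ⌊2 * D⌋₊ := by
        intro d hd
        obtain ⟨⟨h3, h5, h4, _⟩, _⟩ := hB d hd
        rw [mem_Icc]
        exact ⟨Nat.one_le_iff_ne_zero.2 h3.ne_zero, Nat.le_floor h4⟩
      have c1 := Finset.card_le_card hsub
      rw [Nat.card_Icc, Nat.add_sub_cancel] at c1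
      have c2 : (B.card : ℝ) ≤ (⌊2 * D⌋₊ : ℝ) := by exact_mod_cast c1
      exact c2.trans (Nat.floor_le (by linarith))
    calc (B.card : ℝ) ≤ 2 * y0 * 1 := by linarith
      _ ≤ (C + 2 * y0) * D ^ (1 - η) := mul_le_mul (by linarith) hDp (by norm_num) (by positivity)
  push Not at hDD
  set X : ℝ := D ^ (2 - δ) with hX
  have hXy : y0 ≤ X := hDD.trans hDX
  have hX3 : 3 ≤ X := hy3.trans hXy
  have hX0 : 0 < X := by linarith
  have hpi := hy X hXy
  have hXη : 0 < X ^ (1 - η) := Real.rpow_pos_of_pos hX0 _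
  have h2 := H D B hD (fun d hd => by
    obtain ⟨h3, a, h4, h5⟩ := hB d hd
    refine ⟨h3, a, X, h4, le_rfl, ?_, ?_⟩
    · rw [hX]
      exact Real.rpow_le_rpow_of_exponent_le hD1 (by linarith)
    · have hd0 : 1 ≤ d := Nat.one_le_iff_ne_zero.2 h3.1.ne_zero
      have ht1 : (0 : ℝ) < (d.totient : ℝ) := by
        have : 0 < d.totient := Nat.totient_pos.2 hd0
        exact_mod_cast this
      rw [← Lip_pi] at h5
      have h6 : (resCount X d a : ℝ) < (resCount X 1 0 : ℝ) / (2 * (d.totient : ℝ)) := by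
        rcases h5 with h5 | h5
        · exact h5
        · have h7 : resCount X d a = 0 := by
            unfold resCount
            rw [card_eq_zero, filter_eq_empty_iff]
            rintro p hp ⟨hp1, hp2⟩
            rw [mem_Icc] at hp
            exact h5 p hp1 ((Nat.cast_le.2 hp.2).trans (Nat.floor_le hX0.le)) hp2
          rw [h7, Nat.cast_zero]
          have : (0 : ℝ) < (resCount X 1 0 : ℝ) := by linarith
          positivity
      have h8 : (resCount X 1 0 : ℝ) / (2 * (d.totient : ℝ)) = (resCount X 1 0 : ℝ) / (d.totient : ℝ) / 2 := by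
        rw [div_div]
        congr 1
        ring
      have h9 : X ^ (1 - η) / (d.totient : ℝ) ≤ (resCount X 1 0 : ℝ) / (d.totient : ℝ) / 2 := by
        have : X ^ (1 - η) ≤ (resCount X 1 0 : ℝ) / 2 := by linarith
        calc X ^ (1 - η) / (d.totient : ℝ) ≤ (resCount X 1 0 : ℝ) / 2 / (d.totient : ℝ) :=
              div_le_div_of_nonneg_right this ht1.le
          _ = (resCount X 1 0 : ℝ) / (d.totient : ℝ) / 2 := by ring
      rw [h8] at h6
      refine lt_of_le_of_lt h9 ?_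
      rw [abs_sub_comm]
      refine lt_of_lt_of_le ?_ (le_abs_self _)
      linarith)
  refine h2.trans (mul_le_mul_of_nonneg_right (by linarith) (by linarith))

end Pool.Agent.Lib.NLF
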